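import Pool.Agent.R550.DG.Colour
import Pool.Agent.R550.HSGap

set_option autoImplicit false

/-!
# The graph of the reduction as a list of adjacency lists
-/

namespace Pool.Agent.R550.DG

open Pool.Agent.NPC Pool.Agent.R550.HS Pool.Agent.R550.MD Pool.Agent.TH688.Mis
open Pool.Agent.H243R3.TP (Clause lits occ ClauseSat LitTrue)

/-! ### Counting -/

theorem card_filter_range (n : ℕ) (p : ℕ → Bool) :
    ((List.range n).filter p).length = ((Finset.range n).filter fun b => p b = true).card := by
  rw [← List.toFinset_card_of_nodup (List.nodup_range.filter _)]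
  congr 1
  ext v
  simp

/-- the number of literals before the `3 |φ|`-periodic extension -/
def nn (φ : List Clause) : ℕ := 9 * φ.length

/-- the variable of the `a`-th position -/
def varF (φ : List Clause) (a : ℕ) : ℕ := (litAt φ (a % (3 * φ.length))).1

/-- the sign of the `a`-th position -/
def sgF (φ : List Clause) (a : ℕ) : Bool := (litAt φ (a % (3 * φ.length))).2

/-- the rank, computed with lists -/
def rkL (φ : List Clause) (a : ℕ) : ℕ :=
  ((List.range (nn φ)).filter fun b => decide (b < a) && decide (varF φ b = varF φ a)).length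

/-- the number of positions of a variable, computed with lists -/
def cntL (φ : List Clause) (a : ℕ) : ℕ :=
  ((List.range (nn φ)).filter fun b => decide (varF φ b = varF φ a)).length

theorem rkL_eq (φ : List Clause) (a : ℕ) : rkL φ a = rk (varF φ) (nn φ) a := by
  unfold rkL rk
  rw [card_filter_range]
  congr 1
  ext b
  simp

theorem cntL_eq (φ : List Clause) (a : ℕ) : cntL φ a = cnt (varF φ) (nn φ) a := by
  unfold cntL cnt
  rw [card_filter_range]
  congr 1
  ext b
  simp

/-- next position, computed with lists -/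
def nxL (φ : List Clause) (a b : ℕ) : Bool :=
  decide (varF φ a = varF φ b) && decide (rkL φ b = (rkL φ a + 1) % cntL φ a)

theorem nxL_eq (φ : List Clause) (a b : ℕ) : nxL φ a b = nx (varF φ) (nn φ) a b := by
  unfold nxL nx
  rw [rkL_eq, rkL_eq, cntL_eq]

theorem occ_eq (φ : List Clause) :
    occ φ = (List.range (3 * φ.length)).map fun a => (litAt φ a).1 := by
  induction φ with
  | nil => simp [occ]
  | cons c φ ih =>
    have h1 : 3 * (c :: φ).length = 3 + 3 * φ.length := by
      rw [List.length_cons]
      ring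
    have h2 : occ (c :: φ) = (lits c).map Prod.fst ++ occ φ := by
      simp [occ]
    rw [h1, List.range_add, List.map_append, h2, ih]
    refine congrArg₂ (· ++ ·) ?_ ?_
    · simp [lits, litAt, List.range_succ]
    · rw [List.map_map]
      refine List.map_congr_left fun a _ => ?_
      simp only [Function.comp, litAt]
      have e1 : (3 + a) / 3 = a / 3 + 1 := by omega
      have e2 : (3 + a) % 3 = a % 3 := by omega
      rw [e1, e2, List.getD_cons_succ]

theorem cnt_le {φ : List Clause} {B : ℕ} (hB : ∀ x, (occ φ).count x ≤ B) (a : ℕ) :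
    cnt (varF φ) (nn φ) a ≤ 3 * B := by
  classical
  set v := varF φ a with hv
  have h1 : ((Finset.range (3 * φ.length)).filter fun b => (litAt φ b).1 = v).card ≤ B := by
    have h2 := hB v
    rw [occ_eq, List.count_eq_countP, List.countP_map, List.countP_eq_length_filter,
      card_filter_range] at h2
    refine le_trans (le_of_eq ?_) h2
    congr 1
    ext b
    simp
  unfold cnt
  rw [← hv]
  calc ((Finset.range (nn φ)).filter fun b => varF φ b = v).card
      ≤ (Finset.range 3 ×ˢ
          ((Finset.range (3 * φ.length)).filter fun b => (litAt φ b).1 = v)).card := by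
        refine Finset.card_le_card_of_injOn
          (fun b => (b / (3 * φ.length), b % (3 * φ.length))) ?_ ?_
        · intro b hb
          rw [Finset.mem_coe, Finset.mem_filter, Finset.mem_range] at hb
          obtain ⟨hb1, hb2⟩ := hb
          unfold nn at hb1
          have hpos : 0 < 3 * φ.length := by omega
          rw [Finset.mem_coe, Finset.mem_product, Finset.mem_range, Finset.mem_filter,
            Finset.mem_range]
          refine ⟨?_, Nat.mod_lt _ hpos, hb2⟩
          simp only
          rw [Nat.div_lt_iff_lt_mul hpos]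
          omega
        · intro b _ c _ hbc
          simp only [Prod.mk.injEq] at hbc
          rw [← Nat.div_add_mod b (3 * φ.length), hbc.1, hbc.2, Nat.div_add_mod]
    _ ≤ 3 * B := by
        rw [Finset.card_product, Finset.card_range]
        exact Nat.mul_le_mul_left _ h1

theorem cnt_ge {φ : List Clause} {a : ℕ} (ha : a < nn φ) : 3 ≤ cnt (varF φ) (nn φ) a := by
  classical
  unfold nn at *
  have hpos : 0 < 3 * φ.length := by omega
  unfold cnt
  have hsub : ((Finset.range 3).image fun i => i * (3 * φ.length) + a % (3 * φ.length)) ⊆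
      (Finset.range (9 * φ.length)).filter fun b => varF φ b = varF φ a := by
    intro b hb
    obtain ⟨i, hi, rfl⟩ := Finset.mem_image.1 hb
    rw [Finset.mem_range] at hi
    have h1 := Nat.mod_lt a hpos
    rw [Finset.mem_filter, Finset.mem_range]
    constructor
    · have : i * (3 * φ.length) ≤ 2 * (3 * φ.length) := Nat.mul_le_mul_right _ (by omega)
      omega
    · unfold varF
      rw [Nat.add_comm, Nat.add_mul_mod_self_right, Nat.mod_mod]
  have h2 := Finset.card_le_card hsub
  rw [Finset.card_image_of_injective, Finset.card_range] at h2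
  · exact h2
  · intro i j hij
    simp only at hij
    have : i * (3 * φ.length) = j * (3 * φ.length) := by omega
    exact Nat.eq_of_mul_eq_mul_right hpos this

/-! ### The graph -/

/-- the label of the `v`-th vertex -/
def labF (n v : ℕ) : W :=
  if v / n = 0 then .A (v % n) else if v / n = 1 then .B (v % n) else
    if v / n = 2 then .T true (v % n) else if v / n = 3 then .T false (v % n) else
      if v / n = 4 then .Q (v % n / 3) (v % n % 3) false else .Q (v % n / 3) (v % n % 3) true

/-- the index of a label -/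
def ix (n : ℕ) : W → ℕ
  | .A a => a
  | .B a => n + a
  | .T true a => 2 * n + a
  | .T false a => 3 * n + a
  | .Q j i false => 4 * n + (3 * j + i)
  | .Q j i true => 5 * n + (3 * j + i)

theorem ix_lt {n : ℕ} (h3 : n % 3 = 0) {X : W} (hX : Ok n X) : ix n X < 6 * n := by
  rcases X with a | a | ⟨_ | _, a⟩ | ⟨j, i, _ | _⟩ <;> simp only [Ok, ix] at hX ⊢ <;> omega

theorem divmod {n k a : ℕ} (ha : a < n) : (k * n + a) / n = k ∧ (k * n + a) % n = a := by
  constructor
  · rw [Nat.add_comm, Nat.add_mul_div_right _ _ (by omega), Nat.div_eq_of_lt ha, zero_add]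
  · rw [Nat.add_comm, Nat.add_mul_mod_self_right, Nat.mod_eq_of_lt ha]

theorem lab_ix {n : ℕ} (h3 : n % 3 = 0) {X : W} (hX : Ok n X) : labF n (ix n X) = X := by
  rcases X with a | a | ⟨_ | _, a⟩ | ⟨j, i, _ | _⟩ <;> simp only [Ok, ix] at hX ⊢
  · have h := divmod (k := 0) hX
    rw [zero_mul, zero_add] at h
    simp [labF, h]
  · have h := divmod (k := 1) hX
    rw [one_mul] at h
    simp [labF, h]
  · have h := divmod (k := 3) hX
    simp [labF, h]
  · have h := divmod (k := 2) hX
    simp [labF, h]
  · have h := divmod (k := 4) (n := n) (a := 3 * j + i) (by omega)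
    have e1 : (3 * j + i) / 3 = j := by omega
    have e2 : (3 * j + i) % 3 = i := by omega
    simp [labF, h, e1, e2]
  · have h := divmod (k := 5) (n := n) (a := 3 * j + i) (by omega)
    have e1 : (3 * j + i) / 3 = j := by omega
    have e2 : (3 * j + i) % 3 = i := by omega
    simp [labF, h, e1, e2]

theorem ok_lab {n v : ℕ} (h3 : n % 3 = 0) (hv : v < 6 * n) : Ok n (labF n v) := by
  have hn : 0 < n := by omega
  have h1 : v % n < n := Nat.mod_lt _ hn
  unfold labF
  split_ifs <;> simp only [Ok] <;> omega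

theorem ix_lab {n v : ℕ} (h3 : n % 3 = 0) (hv : v < 6 * n) : ix n (labF n v) = v := by
  have hn : 0 < n := by omega
  have h1 := Nat.div_add_mod v n
  have h2 : v / n < 6 := (Nat.div_lt_iff_lt_mul hn).2 hv
  have h4 := Nat.div_add_mod (v % n) 3
  unfold labF
  split_ifs with e0 e1 e2 e3 e4
  · simp only [ix]
    rw [e0] at h1
    omega
  · simp only [ix]
    rw [e1] at h1
    omega
  · simp only [ix]
    rw [e2] at h1
    omega
  · simp only [ix]
    rw [e3] at h1
    omega
  · simp only [ix]
    rw [e4] at h1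
    omega
  · simp only [ix]
    have e5 : v / n = 5 := by
      clear h1
      generalize v / n = k at *
      omega
    rw [e5] at h1
    omega

/-- the adjacency test -/
def tst (φ : List Clause) (n : ℕ) (p x q y : ℕ) : Bool :=
  (decide (p = 0) && (decide (q = 1) && decide (x = y))) ||
  ((decide (p = 1) && (decide (q = 0) && nxL φ x y)) ||
  ((decide (p = 4) && (decide (q = 5) && decide (x = y))) ||
  ((decide (p = 2) && (decide (q = 0) && decide (x = y))) ||
  ((decide (p = 3) && (decide (q = 0) && nxL φ x y)) ||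
  (((decide (p = 2) || decide (p = 3)) && (decide (q = 1) && decide (x = y))) ||
  ((decide (p = 2) && ((decide (q = 4) || decide (q = 5)) && (decide (x / 3 = y / 3) &&
    (!decide (y % 3 = 0) || sgF φ x)))) ||
  (decide (p = 3) && ((decide (q = 4) || decide (q = 5)) && (decide (x / 3 = y / 3) &&
    (!decide (y % 3 = 0) || !sgF φ x)))))))))) && decide (0 < n)

theorem tst_eq {φ : List Clause} {n : ℕ} (hn : 0 < n) (hnn : n = nn φ) {u v : ℕ} (hu : u < 6 * n)
    (hv : v < 6 * n) : tst φ n (u / n) (u % n) (v / n) (v % n) =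
      R (varF φ) (sgF φ) n (labF n u) (labF n v) := by
  have h1 : u / n < 6 := (Nat.div_lt_iff_lt_mul hn).2 hu
  have h2 : v / n < 6 := (Nat.div_lt_iff_lt_mul hn).2 hv
  subst hnn
  unfold labF
  generalize u % nn φ = x at *
  generalize v % nn φ = y at *
  generalize u / nn φ = p at *
  generalize v / nn φ = q at *
  have key : (decide (x / 3 = y / 3) && decide (x % 3 = y % 3)) = decide (x = y) := by
    rw [← Bool.decide_and]
    congr 1
    rw [eq_iff_iff]
    omega
  interval_cases p <;> interval_cases q <;> simp [tst, R, nxL_eq, hn, key]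

/-- the graph of the reduction -/
def GA (φ : List Clause) : List (List ℕ) :=
  (List.range (6 * nn φ)).map fun u => (List.range (6 * nn φ)).filter fun v =>
    tst φ (nn φ) (u / nn φ) (u % nn φ) (v / nn φ) (v % nn φ)

theorem GA_length (φ : List Clause) : (GA φ).length = 6 * nn φ := by simp [GA]

theorem GA_adj (φ : List Clause) (u v : Fin (GA φ).length) : (graph (GA φ)).Adj u v ↔ u ≠ v ∧
    (R (varF φ) (sgF φ) (nn φ) (labF (nn φ) u) (labF (nn φ) v) = true ∨
     R (varF φ) (sgF φ) (nn φ) (labF (nn φ) v) (labF (nn φ) u) = true) := by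
  have key : ∀ u v : Fin (GA φ).length, (v : ℕ) ∈ (GA φ)[u] ↔
      R (varF φ) (sgF φ) (nn φ) (labF (nn φ) u) (labF (nn φ) v) = true := by
    intro u v
    have hu : (u : ℕ) < 6 * nn φ := by simpa [GA] using u.2
    have hv : (v : ℕ) < 6 * nn φ := by simpa [GA] using v.2
    rw [Fin.getElem_fin]
    simp only [GA, List.getElem_map, List.getElem_range, List.mem_filter, List.mem_range, hv,
      true_and]
    rw [tst_eq (by omega) rfl hu hv]
  unfold graph
  rw [SimpleGraph.fromRel_adj, key, key]

theorem R_irrefl {φ : List Clause} {X : W} (hX : Ok (nn φ) X) :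
    R (varF φ) (sgF φ) (nn φ) X X = false := by
  rcases X with a | a | ⟨_ | _, a⟩ | ⟨j, i, _ | _⟩ <;> simp [R]

theorem isG (φ : List Clause) :
    IsG (graph (GA φ)) (fun v => labF (nn φ) v) (varF φ) (sgF φ) (nn φ) := by
  have h3 : nn φ % 3 = 0 := by unfold nn; omega
  have hlt : ∀ v : Fin (GA φ).length, (v : ℕ) < 6 * nn φ := fun v => by
    simpa [GA] using v.2
  refine ⟨?_, fun v => ok_lab h3 (hlt v), ?_, ?_, fun a ha => cnt_ge ha, h3⟩
  · intro u v h
    simp only at h
    apply Fin.ext
    rw [← ix_lab h3 (hlt u), h, ix_lab h3 (hlt v)]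
  · intro X hX
    exact ⟨⟨ix (nn φ) X, by rw [GA_length]; exact ix_lt h3 hX⟩, lab_ix h3 hX⟩
  · intro u v
    rw [GA_adj]
    refine ⟨fun h => h.2, fun h => ⟨?_, h⟩⟩
    rintro rfl
    rw [R_irrefl (ok_lab h3 (hlt u))] at h
    simp at h

/-! ### Polynomial time -/

section

variable {α : Type} [TEnc α]

theorem poly_varF {φ : α → List Clause} {a : α → ℕ} (hφ : NPC.Poly φ) (ha : NPC.Poly a) :
    NPC.Poly (fun x => varF (φ x) (a x)) := by
  unfold varF
  have h := (UPoly.mul (UPoly.const 3) (UPoly.length hφ)).toPoly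
  exact Poly.fst (poly_litAt hφ (Poly.mod ha h))

theorem poly_sgF {φ : α → List Clause} {a : α → ℕ} (hφ : NPC.Poly φ) (ha : NPC.Poly a) :
    NPC.Poly (fun x => sgF (φ x) (a x)) := by
  unfold sgF
  have h := (UPoly.mul (UPoly.const 3) (UPoly.length hφ)).toPoly
  exact Poly.snd (poly_litAt hφ (Poly.mod ha h))

theorem uPoly_nn {φ : α → List Clause} (hφ : NPC.Poly φ) : UPoly (fun x => nn (φ x)) :=
  UPoly.mul (UPoly.const 9) (UPoly.length hφ)

theorem poly_rkL {φ : α → List Clause} {a : α → ℕ} (hφ : NPC.Poly φ) (ha : NPC.Poly a) :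
    NPC.Poly (fun x => rkL (φ x) (a x)) := by
  unfold rkL
  refine Poly.length (Poly.filter (p := fun x b => decide (b < a x) &&
    decide (varF (φ x) b = varF (φ x) (a x))) (uPoly_nn hφ).range ?_)
  have hφ' : NPC.Poly (fun p : α × ℕ => φ p.1) := hφ.comp (Poly.fst Poly.id)
  have ha' : NPC.Poly (fun p : α × ℕ => a p.1) := ha.comp (Poly.fst Poly.id)
  have h1 := poly_varF hφ' (Poly.snd Poly.id)
  have h2 := poly_varF hφ' ha'
  exact Poly.and (Poly.decide_lt (Poly.snd Poly.id) ha') (Poly.decide_eq h1 h2)

theorem poly_cntL {φ : α → List Clause} {a : α → ℕ} (hφ : NPC.Poly φ) (ha : NPC.Poly a) :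
    NPC.Poly (fun x => cntL (φ x) (a x)) := by
  unfold cntL
  refine Poly.length (Poly.filter (p := fun x b =>
    decide (varF (φ x) b = varF (φ x) (a x))) (uPoly_nn hφ).range ?_)
  have hφ' : NPC.Poly (fun p : α × ℕ => φ p.1) := hφ.comp (Poly.fst Poly.id)
  have ha' : NPC.Poly (fun p : α × ℕ => a p.1) := ha.comp (Poly.fst Poly.id)
  have h1 := poly_varF hφ' (Poly.snd Poly.id)
  have h2 := poly_varF hφ' ha'
  exact Poly.decide_eq h1 h2

theorem poly_nxL {φ : α → List Clause} {a b : α → ℕ} (hφ : NPC.Poly φ) (ha : NPC.Poly a)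
    (hb : NPC.Poly b) : NPC.Poly (fun x => nxL (φ x) (a x) (b x)) := by
  unfold nxL
  have h1 := poly_varF hφ ha
  have h2 := poly_varF hφ hb
  have h3 := poly_rkL hφ ha
  have h4 := poly_rkL hφ hb
  have h5 := poly_cntL hφ ha
  fun_prop

theorem poly_tst {φ : α → List Clause} {n p x q y : α → ℕ} (hφ : NPC.Poly φ) (hn : NPC.Poly n)
    (hp : NPC.Poly p) (hx : NPC.Poly x) (hq : NPC.Poly q) (hy : NPC.Poly y) :
    NPC.Poly (fun z => tst (φ z) (n z) (p z) (x z) (q z) (y z)) := by
  unfold tst
  have h1 := poly_nxL hφ hx hy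
  have h2 := poly_sgF hφ hx
  fun_prop

theorem poly_GA : NPC.Poly GA := by
  unfold GA
  have hN : UPoly (fun φ : List Clause => 6 * nn φ) :=
    UPoly.mul (UPoly.const 6) (uPoly_nn Poly.id)
  refine NPC.Poly.map (F := fun φ u => (List.range (6 * nn φ)).filter fun v =>
    tst φ (nn φ) (u / nn φ) (u % nn φ) (v / nn φ) (v % nn φ)) hN.range ?_
  refine Poly.filter (p := fun (z : List Clause × ℕ) v =>
    tst z.1 (nn z.1) (z.2 / nn z.1) (z.2 % nn z.1) (v / nn z.1) (v % nn z.1))
    (hN.range.comp (Poly.fst Poly.id)) ?_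
  have hφ : NPC.Poly (fun p : (List Clause × ℕ) × ℕ => p.1.1) := Poly.fst (Poly.fst Poly.id)
  have hn : NPC.Poly (fun p : (List Clause × ℕ) × ℕ => nn p.1.1) := (uPoly_nn hφ).toPoly
  have hu : NPC.Poly (fun p : (List Clause × ℕ) × ℕ => p.1.2) := Poly.snd (Poly.fst Poly.id)
  have hv : NPC.Poly (fun p : (List Clause × ℕ) × ℕ => p.2) := Poly.snd Poly.id
  exact poly_tst hφ hn (Poly.div hu hn) (Poly.mod hu hn) (Poly.div hv hn) (Poly.mod hv hn)

end

end Pool.Agent.R550.DG
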