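import Pool.Agent.R550.DG.Sat

set_option autoImplicit false

/-!
# From an assignment to a partition
-/

namespace Pool.Agent.R550.DG

open Classical in
/-- a colouring all whose classes are cliques gives a partition of large density -/
theorem density_ge {N k : ℕ} (G : SimpleGraph (Fin N)) (f : Fin N → ℕ) (hf : ∀ x, f x < k)
    (hadj : ∀ x y, f x = f y → x ≠ y → G.Adj x y) :
    ∃ π : Finpartition (Finset.univ : Finset (Fin N)), ((N : ℝ) - k) / 2 ≤ density G π := by
  have : DecidableRel (Setoid.ker f).r := fun u v => inferInstanceAs (Decidable (f u = f v))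
  refine ⟨Finpartition.ofSetoid (Setoid.ker f), ?_⟩
  set π := Finpartition.ofSetoid (Setoid.ker f) with hπ
  have hpart : ∀ P ∈ π.parts, ∀ x ∈ P, ∀ y, y ∈ P ↔ f x = f y := by
    intro P hP x hx y
    rw [← π.part_eq_of_mem hP hx, hπ, Finpartition.mem_part_ofSetoid_iff_rel]
    rfl
  have hcard : π.parts.card ≤ k := by
    have hsub : π.parts ⊆ (Finset.range k).image fun c => Finset.univ.filter fun y => c = f y := by
      intro P hP
      obtain ⟨x, hx⟩ := π.nonempty_of_mem_parts hP
      refine Finset.mem_image.2 ⟨f x, Finset.mem_range.2 (hf x), ?_⟩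
      ext y
      rw [hpart P hP x hx y]
      simp
    exact (Finset.card_le_card hsub).trans (Finset.card_image_le.trans (Finset.card_range k).le)
  have hterm : ∀ P ∈ π.parts, (edgesIn G P : ℝ) / P.card = ((P.card : ℝ) - 1) / 2 := by
    intro P hP
    have hne := π.nonempty_of_mem_parts hP
    have hpos : (0 : ℝ) < P.card := by exact_mod_cast Finset.card_pos.2 hne
    have h1 : eo G P = P.card * P.card - P.card := by
      rw [← Finset.offDiag_card]
      unfold eo
      congr 1
      ext ⟨x, y⟩
      rw [Finset.mem_filter, Finset.mem_product, Finset.mem_offDiag]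
      constructor
      · rintro ⟨⟨hx, hy⟩, h⟩
        exact ⟨hx, hy, h.ne⟩
      · rintro ⟨hx, hy, hxy⟩
        exact ⟨⟨hx, hy⟩, hadj _ _ ((hpart P hP x hx y).1 hy) hxy⟩
    rw [eo_eq] at h1
    have h2 : 2 * edgesIn G P + P.card = P.card * P.card := by
      have : P.card ≤ P.card * P.card := Nat.le_mul_self _
      omega
    have h3 : 2 * (edgesIn G P : ℝ) + P.card = P.card * P.card := by exact_mod_cast h2
    rw [div_eq_div_iff hpos.ne' (by norm_num)]
    linarith
  unfold density
  rw [Finset.sum_congr rfl hterm, ← Finset.sum_div, Finset.sum_sub_distrib]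
  have h1 : (N : ℝ) = ∑ P ∈ π.parts, (P.card : ℝ) := by
    rw [← Nat.cast_sum, π.sum_card_parts, Finset.card_univ, Fintype.card_fin]
  rw [← h1, Finset.sum_const, nsmul_eq_mul, mul_one]
  have h2 : (π.parts.card : ℝ) ≤ k := by exact_mod_cast hcard
  linarith

variable {N : ℕ} {G : SimpleGraph (Fin N)} {lab : Fin N → W} {var : ℕ → ℕ} {sg : ℕ → Bool} {n : ℕ}

/-- the colour of a label; `pre` is the predecessor, `i0 j` is the index of a true literal of the
clause `j` -/
def col (var : ℕ → ℕ) (n : ℕ) (σ : ℕ → Bool) (pre i0 : ℕ → ℕ) : W → ℕ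
  | .A b => if σ (var b) then pre b else b
  | .B a => a
  | .T s a => if s = σ (var a) then n + (3 * (a / 3) + (a % 3 + 3 - i0 (a / 3)) % 3) else a
  | .Q j i _ => n + (3 * j + i)

theorem col_lt {σ : ℕ → Bool} {pre i0 : ℕ → ℕ} (h3 : n % 3 = 0)
    (hpre : ∀ b < n, pre b < n ∧ nx var n (pre b) b = true) {X : W} (hX : Ok n X) :
    col var n σ pre i0 X < 2 * n := by
  cases X with
  | A b =>
    have h1 : b < n := hX
    have := hpre b hX
    simp only [col]
    split_ifs <;> omega
  | B a =>
    have h1 : a < n := hX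
    simp only [col]
    omega
  | T s a =>
    have h1 : a < n := hX
    simp only [col]
    split_ifs <;> omega
  | Q j i u =>
    obtain ⟨h1, h2⟩ : 3 * j < n ∧ i < 3 := hX
    simp only [col]
    omega

/-- the labels with a small colour -/
theorem col_small {σ : ℕ → Bool} {pre i0 : ℕ → ℕ}
    (hpre : ∀ b < n, pre b < n ∧ nx var n (pre b) b = true) {X : W} (hX : Ok n X) {a : ℕ}
    (ha : a < n) (h : col var n σ pre i0 X = a) :
    X = .B a ∨ (σ (var a) = true ∧ ((∃ b < n, nx var n a b = true ∧ X = .A b) ∨ X = .T false a)) ∨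
      (σ (var a) = false ∧ (X = .A a ∨ X = .T true a)) := by
  cases X with
  | A b =>
    have h1 : b < n := hX
    obtain ⟨h2, h3⟩ := hpre b h1
    simp only [col] at h
    split_ifs at h with h4
    · subst h
      have h5 := (nx_iff.1 h3).1
      exact Or.inr (Or.inl ⟨by rw [h5]; exact h4, Or.inl ⟨b, h1, h3, rfl⟩⟩)
    · subst h
      exact Or.inr (Or.inr ⟨by simpa using h4, Or.inl rfl⟩)
  | B b =>
    simp only [col] at h
    rw [h]
    exact Or.inl rfl
  | T s b =>
    have h1 : b < n := hX
    simp only [col] at h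
    split_ifs at h with h4
    · omega
    · subst h
      cases s with
      | true =>
        have : σ (var b) = false := by
          cases h5 : σ (var b) with
          | true => exact absurd h5.symm h4
          | false => rfl
        exact Or.inr (Or.inr ⟨this, Or.inr rfl⟩)
      | false =>
        have : σ (var b) = true := by
          cases h5 : σ (var b) with
          | false => exact absurd h5.symm h4
          | true => rfl
        exact Or.inr (Or.inl ⟨this, Or.inr rfl⟩)
  | Q j i u =>
    simp only [col] at h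
    omega

/-- the labels with a large colour -/
theorem col_large {σ : ℕ → Bool} {pre i0 : ℕ → ℕ}
    (hpre : ∀ b < n, pre b < n ∧ nx var n (pre b) b = true) {X : W} (hX : Ok n X) {j i : ℕ}
    (hi : i < 3) (h : col var n σ pre i0 X = n + (3 * j + i)) :
    (∃ u, X = .Q j i u) ∨ (∃ a, a / 3 = j ∧ (a % 3 + 3 - i0 (a / 3)) % 3 = i ∧
      X = .T (σ (var a)) a) := by
  cases X with
  | A b =>
    have h1 : b < n := hX
    obtain ⟨h2, h3⟩ := hpre b h1
    simp only [col] at h
    split_ifs at h <;> omega
  | B b =>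
    have h1 : b < n := hX
    simp only [col] at h
    omega
  | T s b =>
    have h1 : b < n := hX
    simp only [col] at h
    split_ifs at h with h4
    · right
      have h5 : (b % 3 + 3 - i0 (b / 3)) % 3 < 3 := Nat.mod_lt _ (by norm_num)
      refine ⟨b, by omega, by omega, by rw [h4]⟩
    · omega
  | Q j' i' u =>
    obtain ⟨h1, h2⟩ : 3 * j' < n ∧ i' < 3 := hX
    simp only [col] at h
    left
    have e1 : j' = j := by omega
    have e2 : i' = i := by omega
    subst e1 e2
    exact ⟨u, rfl⟩

/-- labels with the same colour are adjacent -/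
theorem col_adj {σ : ℕ → Bool} {pre i0 : ℕ → ℕ}  (h3 : n % 3 = 0)
    (hpre : ∀ b < n, pre b < n ∧ nx var n (pre b) b = true)
    (hi0 : ∀ j, 3 * j < n → i0 j < 3 ∧ σ (var (3 * j + i0 j)) = sg (3 * j + i0 j))
    {X Y : W} (hX : Ok n X) (hY : Ok n Y)
    (h : col var n σ pre i0 X = col var n σ pre i0 Y) (hXY : X ≠ Y) :
    R var sg n X Y = true ∨ R var sg n Y X = true := by
  rcases Nat.lt_or_ge (col var n σ pre i0 X) n with hc | hc
  · obtain ⟨a, ha⟩ : ∃ a, a = col var n σ pre i0 X := ⟨_, rfl⟩
    rw [← ha] at hc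
    have h1 := col_small hpre hX hc ha.symm
    have h2 := col_small hpre hY hc (h.symm.trans ha.symm)
    rcases h1 with rfl | ⟨e1, ⟨b, hb, hab, rfl⟩ | rfl⟩ | ⟨e1, rfl | rfl⟩ <;>
      rcases h2 with rfl | ⟨e2, ⟨c, hc', hac, rfl⟩ | rfl⟩ | ⟨e2, rfl | rfl⟩ <;>
      first
      | exact absurd rfl hXY
      | (rw [e1] at e2; exact absurd e2 (by decide))
      | exact absurd (congrArg W.A (nx_unique hb hc' hab hac)) hXY
      | (simp [R, hab]; done)
      | (simp [R, hac]; done)
      | (simp [R]; done)
  · have hlt := col_lt (σ := σ) (pre := pre) (i0 := i0) h3 hpre hX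
    obtain ⟨j, i, hi, hj, hji⟩ : ∃ j i, i < 3 ∧ 3 * j < n ∧
        col var n σ pre i0 X = n + (3 * j + i) := by
      refine ⟨(col var n σ pre i0 X - n) / 3, (col var n σ pre i0 X - n) % 3,
        Nat.mod_lt _ (by norm_num), by omega, by omega⟩
    have h1 := col_large hpre hX hi hji
    have h2 := col_large hpre hY hi (h.symm.trans hji)
    obtain ⟨h5, h6⟩ := hi0 j hj
    -- a tip is adjacent to the pair
    have key : ∀ a, a / 3 = j → (a % 3 + 3 - i0 (a / 3)) % 3 = i →
        (i = 0 → σ (var a) = sg a) ∧ a = 3 * j + (i0 j + i) % 3 := by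
      intro a ha1 ha2
      rw [ha1] at ha2
      have hlt3 : a % 3 < 3 := Nat.mod_lt _ (by norm_num)
      have e1 : a = 3 * j + (i0 j + i) % 3 := by omega
      refine ⟨fun h0 => ?_, e1⟩
      have e2 : a = 3 * j + i0 j := by omega
      rw [e2]
      exact h6
    rcases h1 with ⟨u, rfl⟩ | ⟨a, ha1, ha2, rfl⟩ <;>
      rcases h2 with ⟨u', rfl⟩ | ⟨b, hb1, hb2, rfl⟩
    · cases u <;> cases u' <;> simp [R] at hXY ⊢
    · right
      obtain ⟨k1, _⟩ := key b hb1 hb2
      simp only [R, hb1, decide_true, Bool.true_and, Bool.or_eq_true, Bool.not_eq_true',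
        decide_eq_false_iff_not, decide_eq_true_eq]
      by_cases h0 : i = 0
      · exact Or.inr (k1 h0)
      · exact Or.inl h0
    · left
      obtain ⟨k1, _⟩ := key a ha1 ha2
      simp only [R, ha1, decide_true, Bool.true_and, Bool.or_eq_true, Bool.not_eq_true',
        decide_eq_false_iff_not, decide_eq_true_eq]
      by_cases h0 : i = 0
      · exact Or.inr (k1 h0)
      · exact Or.inl h0
    · obtain ⟨_, k1⟩ := key a ha1 ha2
      obtain ⟨_, k2⟩ := key b hb1 hb2
      have : a = b := k1.trans k2.symm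
      subst this
      exact absurd rfl hXY

/-- a satisfying assignment gives a partition of density at least `2 n` -/
theorem density_of_sat (hG : IsG G lab var sg n) (hN : N = 6 * n) {σ : ℕ → Bool}
    (hσ : ∀ j, 3 * j < n → ∃ i < 3, σ (var (3 * j + i)) = sg (3 * j + i)) :
    ∃ π : Finpartition (Finset.univ : Finset (Fin N)), 2 * (n : ℝ) ≤ density G π := by
  have h1 : ∀ b, ∃ a, b < n → a < n ∧ nx var n a b = true := by
    intro b
    by_cases hb : b < n
    · obtain ⟨a, ha, hab⟩ := nx_pre (var := var) hb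
      exact ⟨a, fun _ => ⟨ha, hab⟩⟩
    · exact ⟨0, fun h => absurd h hb⟩
  choose pre hpre using h1
  have h2 : ∀ j, ∃ i, 3 * j < n → i < 3 ∧ σ (var (3 * j + i)) = sg (3 * j + i) := by
    intro j
    by_cases hj : 3 * j < n
    · obtain ⟨i, hi, h⟩ := hσ j hj
      exact ⟨i, fun _ => ⟨hi, h⟩⟩
    · exact ⟨0, fun h => absurd h hj⟩
  choose i0 hi0 using h2
  obtain ⟨π, hπ⟩ := density_ge (k := 2 * n) G (fun x => col var n σ pre i0 (lab x))
    (fun x => col_lt hG.dvd hpre (hG.ok x)) (fun x y hxy hne =>
      (hG.adj x y).2 (col_adj hG.dvd hpre hi0 (hG.ok x) (hG.ok y) hxy fun h => hne (hG.inj h)))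
  refine ⟨π, le_trans (le_of_eq ?_) hπ⟩
  rw [hN]
  push_cast
  ring

end Pool.Agent.R550.DG
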