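import Pool.Agent.R550.MD.Defs

set_option autoImplicit false

/-!
# Dense Graph Partition: definitions
-/

namespace Pool.Agent.R550.DG

open Pool.Agent.NPC Pool.Agent.R550.MD

open Classical in
/-- The number of edges of `G` with both end points in `P`. -/
noncomputable def edgesIn {n : ℕ} (G : SimpleGraph (Fin n)) (P : Finset (Fin n)) : ℕ :=
  ((P ×ˢ P).filter fun q => q.1 < q.2 ∧ G.Adj q.1 q.2).card

/-- The density of a partition of the vertices: the sum of `|E(P)| / |P|` over its parts `P`. -/
noncomputable def density {n : ℕ} (G : SimpleGraph (Fin n))
    (π : Finpartition (Finset.univ : Finset (Fin n))) : ℝ :=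
  ∑ P ∈ π.parts, (edgesIn G P : ℝ) / P.card

/-- The partition of the vertices `0, …, n - 1` given by a list `L` of colours: two vertices `u`,
`v` are in the same part if and only if the `u`-th and the `v`-th entry of `L` are equal (missing
entries are read as `0`). -/
def ofColours {n : ℕ} (L : List ℕ) : Finpartition (Finset.univ : Finset (Fin n)) :=
  haveI : DecidableRel (Setoid.ker fun v : Fin n => L.getD v 0).r := fun u v =>
    inferInstanceAs (Decidable (L.getD u 0 = L.getD v 0))
  Finpartition.ofSetoid (Setoid.ker fun v : Fin n => L.getD v 0)

/-- There is a polynomial-time algorithm for Dense Graph Partition with the guarantee `r`: a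
polynomial-time computable function `F` on bit strings which maps the code of every graph to the
code of (the list of colours of) a partition whose density is at least `r` times the density of
every partition. -/
def Approx (r : ℝ) : Prop :=
  ∃ F : List Bool → List Bool, PolyTime F ∧ ∀ A : List (List ℕ),
    ∃ L : List ℕ, F (bits A) = bits L ∧
      ∀ ρ : Finpartition (Finset.univ : Finset (Fin A.length)),
        r * density (graph A) ρ ≤ density (graph A) (ofColours L)

end Pool.Agent.R550.DG
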