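import Pool.Agent.R550.DG.Ring

set_option autoImplicit false

/-!
# The graph of the reduction to Dense Graph Partition
-/

namespace Pool.Agent.R550.DG

/-- labels of the vertices: `A a`, `B a` ring vertices of the position `a`, `T s a` tips (`T true a`
on the ring edge `A a`, `B a`; `T false a` on the ring edge `B a`, `A b`, `b` the next position),
`Q j i t` the vertices of the `i`-th pair of the clause `j` -/
inductive W
  | A (a : ℕ) | B (a : ℕ) | T (s : Bool) (a : ℕ) | Q (j i : ℕ) (t : Bool)
  deriving DecidableEq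

/-- directed adjacency -/
def R (var : ℕ → ℕ) (sg : ℕ → Bool) (n : ℕ) : W → W → Bool
  | .A a, .B a' => decide (a = a')
  | .B a, .A b => nx var n a b
  | .Q j i false, .Q j' i' true => decide (j = j') && decide (i = i')
  | .T true a, .A a' => decide (a = a')
  | .T false a, .A b => nx var n a b
  | .T _ a, .B a' => decide (a = a')
  | .T s a, .Q j i _ => decide (a / 3 = j) && (!decide (i = 0) || decide (s = sg a))
  | _, _ => false

/-- the labels which are used -/
def Ok (n : ℕ) : W → Prop
  | .A a => a < n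
  | .B a => a < n
  | .T _ a => a < n
  | .Q j i _ => 3 * j < n ∧ i < 3

/-- tips -/
def tip : W → Bool
  | .T _ _ => true
  | _ => false

/-- `G` is the graph of the reduction -/
structure IsG {V : Type} (G : SimpleGraph V) (lab : V → W) (var : ℕ → ℕ) (sg : ℕ → Bool)
    (n : ℕ) : Prop where
  inj : Function.Injective lab
  ok : ∀ x, Ok n (lab x)
  surj : ∀ X, Ok n X → ∃ x, lab x = X
  adj : ∀ x y, G.Adj x y ↔ (R var sg n (lab x) (lab y) = true ∨ R var sg n (lab y) (lab x) = true)
  c3 : ∀ a < n, 3 ≤ cnt var n a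
  dvd : n % 3 = 0

section

variable {V : Type} {G : SimpleGraph V} {lab : V → W} {var : ℕ → ℕ} {sg : ℕ → Bool} {n : ℕ}

/-- successor relation on the core -/
def sc (var : ℕ → ℕ) (n : ℕ) : W → W → Prop
  | .A a, .B a' => a = a'
  | .B a, .A b => nx var n a b = true
  | .Q j i false, .Q j' i' true => j = j' ∧ i = i'
  | _, _ => False

theorem R_core {X Y : W} (hX : tip X = false) (h : R var sg n X Y = true) :
    tip Y = false ∧ sc var n X Y := by
  rcases X with a | a | ⟨s, a⟩ | ⟨j, i, _ | _⟩ <;> rcases Y with b | b | ⟨s', b⟩ | ⟨k, l, _ | _⟩ <;>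
    simp_all [R, sc, tip]

theorem R_tip {X Y : W} (hY : tip Y = true) : R var sg n X Y = false := by
  rcases X with a | a | ⟨_ | _, a⟩ | ⟨j, i, _ | _⟩ <;>
    rcases Y with b | b | ⟨s', b⟩ | ⟨k, l, _ | _⟩ <;> simp_all [R, tip]

theorem sc_fun {X Y Z : W} (hY : Ok n Y) (hZ : Ok n Z) (h : sc var n X Y) (h' : sc var n X Z) :
    Y = Z := by
  rcases X with a | a | ⟨s, a⟩ | ⟨j, i, _ | _⟩ <;>
    rcases Y with b | b | ⟨s', b⟩ | ⟨k, l, _ | _⟩ <;>
    rcases Z with c | c | ⟨s'', c⟩ | ⟨k', l', _ | _⟩ <;> simp_all [sc]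
  exact nx_unique hY hZ h h'

/-- a closed set of core labels has at least five elements -/
theorem five (hc : ∀ a < n, 3 ≤ cnt var n a) (C : Finset W) (hCok : ∀ X ∈ C, Ok n X)
    (hC : ∀ X ∈ C, ∃ Y ∈ C, sc var n X Y) (hne : C.Nonempty) : 5 ≤ C.card := by
  -- there is an element of the form `A a`
  obtain ⟨a, ha⟩ : ∃ a, W.A a ∈ C := by
    obtain ⟨X, hX⟩ := hne
    obtain ⟨Y, hY, hXY⟩ := hC X hX
    obtain ⟨Z, hZ, hYZ⟩ := hC Y hY
    rcases X with a | a | ⟨s, a⟩ | ⟨j, i, _ | _⟩ <;>
      rcases Y with b | b | ⟨s', b⟩ | ⟨k, l, _ | _⟩ <;>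
      simp [sc] at hXY
    · exact ⟨a, hX⟩
    · exact ⟨b, hY⟩
    · exact absurd hYZ (by simp [sc])
  have step : ∀ a, W.A a ∈ C → W.B a ∈ C ∧ ∃ b, W.A b ∈ C ∧ nx var n a b = true := by
    intro a ha
    obtain ⟨Y, hY, h⟩ := hC _ ha
    have h1 : Y = W.B a := by
      rcases Y with b | b | ⟨s', b⟩ | ⟨k, l, _ | _⟩ <;> simp [sc] at h
      rw [h]
    subst h1
    refine ⟨hY, ?_⟩
    obtain ⟨Z, hZ, h⟩ := hC _ hY
    rcases Z with b | b | ⟨s', b⟩ | ⟨k, l, _ | _⟩ <;> simp [sc] at h
    exact ⟨b, hZ, h⟩
  obtain ⟨h1, b, hb, hab⟩ := step a ha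
  obtain ⟨h2, c, hc', hbc⟩ := step b hb
  have ha' : a < n := hCok _ ha
  have hb' : b < n := hCok _ hb
  have e1 : a ≠ b := nx_ne ha' (hc a ha') hab
  have e2 : b ≠ c := nx_ne hb' (hc b hb') hbc
  have e3 : a ≠ c := nx_ne2 ha' (hc a ha') hab hbc
  have hsub : ({W.A a, W.B a, W.A b, W.B b, W.A c} : Finset W) ⊆ C := by
    intro X hX
    simp only [Finset.mem_insert, Finset.mem_singleton] at hX
    rcases hX with rfl | rfl | rfl | rfl | rfl <;> assumption
  have hcard : ({W.A a, W.B a, W.A b, W.B b, W.A c} : Finset W).card = 5 := by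
    rw [Finset.card_insert_of_notMem, Finset.card_insert_of_notMem, Finset.card_insert_of_notMem,
      Finset.card_insert_of_notMem, Finset.card_singleton] <;>
      simp [e1, e2, e3]
  rw [← hcard]
  exact Finset.card_le_card hsub

open Classical in
/-- ordered adjacent pairs in `P` -/
noncomputable def eo (G : SimpleGraph V) (P : Finset V) : ℕ :=
  ((P ×ˢ P).filter fun q => G.Adj q.1 q.2).card

open Classical in
/-- the core vertices of `P` -/
noncomputable def co (lab : V → W) (P : Finset V) : Finset V := P.filter fun v => tip (lab v) = false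

open Classical in
/-- the tips of `P` -/
noncomputable def ti (lab : V → W) (P : Finset V) : Finset V := P.filter fun v => tip (lab v) = true

theorem card_co_ti (lab : V → W) (P : Finset V) : (co lab P).card + (ti lab P).card = P.card := by
  classical
  have h : ti lab P = P.filter fun v => ¬ tip (lab v) = false := by
    unfold ti
    ext v
    simp
  rw [h]
  unfold co
  exact Finset.card_filter_add_card_filter_not _

open Classical in
theorem eo_le (hG : IsG G lab var sg n) (P : Finset V) :
    ∃ s : ℕ, eo G P ≤ 2 * s + 2 * ((co lab P).card * (ti lab P).card) ∧ s ≤ (co lab P).card ∧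
      (1 ≤ (co lab P).card → (co lab P).card ≤ 4 → s + 1 ≤ (co lab P).card) := by
  set C := co lab P with hC
  set D := ti lab P with hD
  set E := (C ×ˢ C).filter fun q => sc var n (lab q.1) (lab q.2) with hE
  have hs : E.card ≤ C.card := by
    refine Finset.card_le_card_of_injOn (fun q => q.1) ?_ ?_
    · intro q hq
      have := (Finset.mem_filter.1 hq).1
      exact (Finset.mem_product.1 this).1
    · intro q hq q' hq' h
      have h1 := (Finset.mem_filter.1 hq).2
      have h2 := (Finset.mem_filter.1 hq').2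
      simp only at h
      rw [← h] at h2
      exact Prod.ext h (hG.inj (sc_fun (hG.ok _) (hG.ok _) h1 h2))
  refine ⟨E.card, ?_, hs, ?_⟩
  · -- the adjacent pairs
    have hsub : ((P ×ˢ P).filter fun q => G.Adj q.1 q.2) ⊆
        (E ∪ E.image Prod.swap) ∪ ((C ×ˢ D) ∪ (D ×ˢ C)) := by
      rintro ⟨x, y⟩ hq
      rw [Finset.mem_filter, Finset.mem_product] at hq
      obtain ⟨⟨hx, hy⟩, hadj⟩ := hq
      simp only at hx hy hadj
      have memC : ∀ z ∈ P, tip (lab z) = false → z ∈ C := fun z hz h => by
        rw [hC]; unfold co; exact Finset.mem_filter.2 ⟨hz, h⟩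
      have memD : ∀ z ∈ P, tip (lab z) = true → z ∈ D := fun z hz h => by
        rw [hD]; unfold ti; exact Finset.mem_filter.2 ⟨hz, h⟩
      simp only [Finset.mem_union, Finset.mem_product]
      rcases (hG.adj x y).1 hadj with h | h
      · cases hx' : tip (lab x)
        · obtain ⟨h1, h2⟩ := R_core hx' h
          left; left
          exact Finset.mem_filter.2 ⟨Finset.mem_product.2 ⟨memC x hx hx', memC y hy h1⟩, h2⟩
        · cases hy' : tip (lab y)
          · right; right
            exact ⟨memD x hx hx', memC y hy hy'⟩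
          · rw [R_tip hy'] at h
            simp at h
      · cases hy' : tip (lab y)
        · obtain ⟨h1, h2⟩ := R_core hy' h
          left; right
          exact Finset.mem_image.2 ⟨(y, x), Finset.mem_filter.2
            ⟨Finset.mem_product.2 ⟨memC y hy hy', memC x hx h1⟩, h2⟩, rfl⟩
        · cases hx' : tip (lab x)
          · right; left
            exact ⟨memC x hx hx', memD y hy hy'⟩
          · rw [R_tip hx'] at h
            simp at h
    calc eo G P ≤ _ := Finset.card_le_card hsub
      _ ≤ (E ∪ E.image Prod.swap).card + ((C ×ˢ D) ∪ (D ×ˢ C)).card := Finset.card_union_le _ _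
      _ ≤ (E.card + (E.image Prod.swap).card) + ((C ×ˢ D).card + (D ×ˢ C).card) :=
          Nat.add_le_add (Finset.card_union_le _ _) (Finset.card_union_le _ _)
      _ ≤ (E.card + E.card) + (C.card * D.card + D.card * C.card) := by
          refine Nat.add_le_add (Nat.add_le_add_left Finset.card_image_le _) ?_
          rw [Finset.card_product, Finset.card_product]
      _ = 2 * E.card + 2 * (C.card * D.card) := by ring
  · intro h1 h4
    by_contra hcon
    have heq : E.card = C.card := by omega
    -- every vertex of `C` has its successor in `C`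
    have himg : E.image (fun q => q.1) = C := by
      refine Finset.eq_of_subset_of_card_le ?_ ?_
      · intro x hx
        obtain ⟨q, hq, rfl⟩ := Finset.mem_image.1 hx
        exact (Finset.mem_product.1 (Finset.mem_filter.1 hq).1).1
      · rw [Finset.card_image_of_injOn, heq]
        intro q hq q' hq' h
        have h1 := (Finset.mem_filter.1 hq).2
        have h2 := (Finset.mem_filter.1 hq').2
        simp only at h
        rw [← h] at h2
        exact Prod.ext h (hG.inj (sc_fun (hG.ok _) (hG.ok _) h1 h2))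
    have h5 := five hG.c3 (C.image lab) (by
        intro X hX
        obtain ⟨x, _, rfl⟩ := Finset.mem_image.1 hX
        exact hG.ok x)
      (by
        intro X hX
        obtain ⟨x, hx, rfl⟩ := Finset.mem_image.1 hX
        rw [← himg] at hx
        obtain ⟨q, hq, rfl⟩ := Finset.mem_image.1 hx
        have h1 := (Finset.mem_filter.1 hq)
        exact ⟨lab q.2, Finset.mem_image.2 ⟨q.2, (Finset.mem_product.1 h1.1).2, rfl⟩, h1.2⟩)
      (by
        obtain ⟨x, hx⟩ := Finset.card_pos.1 h1
        exact ⟨lab x, Finset.mem_image.2 ⟨x, hx, rfl⟩⟩)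
    have h6 : (C.image lab).card ≤ C.card := Finset.card_image_le
    omega

/-- `P` is a triangle -/
def Tri (G : SimpleGraph V) (lab : V → W) (P : Finset V) : Prop :=
  (co lab P).card = 2 ∧ (ti lab P).card = 1 ∧ eo G P = 6

theorem arith (c τ s e : ℕ) (h1 : e ≤ 2 * s + 2 * (c * τ)) (h2 : s ≤ c)
    (h3 : 1 ≤ c → c ≤ 4 → s + 1 ≤ c) (h4 : ¬ (c = 2 ∧ τ = 1 ∧ e = 6)) (hev : e % 2 = 0) :
    48 * e ≤ 31 * (c + τ) ^ 2 := by
  rcases Nat.lt_or_ge c 5 with h | h
  · interval_cases c
    · have : s = 0 := by omega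
      subst this
      simp at h1
      subst h1
      positivity
    · have : s = 0 := by omega
      subst this
      zify at h1 ⊢
      nlinarith [sq_nonneg ((τ : ℤ) - 1)]
    · have hs : s ≤ 1 := by omega
      have h5 : e ≤ 2 + 4 * τ := by omega
      by_cases hτ : τ = 1
      · subst hτ
        have : e ≤ 4 := by
          by_contra hcon
          exact h4 ⟨rfl, rfl, by omega⟩
        omega
      · rcases Nat.lt_or_ge τ 1 with h6 | h6
        · have : τ = 0 := by omega
          subst this
          omega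
        · have h7 : 2 ≤ τ := by omega
          zify at h5 h7 ⊢
          nlinarith [sq_nonneg ((τ : ℤ) - 2)]
    · have hs : s ≤ 2 := by omega
      have h5 : e ≤ 4 + 6 * τ := by omega
      zify at h5 ⊢
      nlinarith [sq_nonneg ((τ : ℤ) * 31 - 51)]
    · have hs : s ≤ 3 := by omega
      have h5 : e ≤ 6 + 8 * τ := by omega
      zify at h5 ⊢
      nlinarith [sq_nonneg ((τ : ℤ) * 31 - 68)]
  · zify at h1 h2 h ⊢
    have h5 : (5 : ℤ) * c ≤ c * c := by nlinarith
    have h6 : (e : ℤ) ≤ 2 * c + 2 * (c * τ) := by nlinarith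
    nlinarith [sq_nonneg ((31 : ℤ) * τ - 17 * c)]

end

end Pool.Agent.R550.DG
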