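import Pool.Agent.R550.DG.Code

set_option autoImplicit false

/-!
# Hardness of approximation of Dense Graph Partition
-/

namespace Pool.Agent.R550.DG

open Pool.Agent.NPC Pool.Agent.R550.HS Pool.Agent.R550.MD Pool.Agent.TH688.Mis
open Pool.Agent.H243R3.TP (Clause lits occ ClauseSat LitTrue numSat)
open Pool.Agent.H243R3.PCP (unsat unsat_add)

theorem litAt_mem (φ : List Clause) (a : ℕ) :
    litAt φ a ∈ lits (φ.getD (a / 3) ((0, true), (0, true), (0, true))) := by
  unfold litAt
  have h3 : a % 3 < (lits (φ.getD (a / 3) ((0, true), (0, true), (0, true)))).length := by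
    simp only [lits, List.length_cons, List.length_nil]
    omega
  rw [List.getD_eq_getElem?_getD (l := lits _), List.getElem?_eq_getElem h3]
  exact List.getElem_mem _

/-- the graph of the reduction, for a satisfiable formula -/
theorem yes {φ : List Clause} {A : List ℕ} (h : unsat φ A = 0) :
    ∃ π : Finpartition (Finset.univ : Finset (Fin (GA φ).length)),
      2 * (nn φ : ℝ) ≤ density (graph (GA φ)) π := by
  refine density_of_sat (isG φ) (GA_length φ) (σ := fun v => decide (v ∈ A)) ?_
  intro j hj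
  have hnum : numSat φ A = φ.length := by
    have := unsat_add φ A
    omega
  have hall : ∀ j < φ.length, ClauseSat A (φ.getD j ((0, true), (0, true), (0, true))) := by
    rw [numSat_eq] at hnum
    have h1 : ((List.range φ.length).filter fun j =>
      decide (ClauseSat A (φ.getD j ((0, true), (0, true), (0, true))))).length =
        (List.range φ.length).length := by rw [hnum, List.length_range]
    rw [List.length_filter_eq_length_iff] at h1
    intro j hj
    simpa using h1 j (List.mem_range.2 hj)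
  unfold nn at hj
  have hm : 0 < φ.length := by omega
  have hj' : j % φ.length < φ.length := Nat.mod_lt _ hm
  obtain ⟨l, hl, hl'⟩ := hall _ hj'
  obtain ⟨i, hi, rfl⟩ := List.getElem_of_mem hl
  have hi3 : i < 3 := by simpa [lits] using hi
  refine ⟨i, hi3, ?_⟩
  have hmod : (3 * j + i) % (3 * φ.length) = 3 * (j % φ.length) + i := by
    have h1 : 3 * j + i = (3 * (j % φ.length) + i) + (3 * φ.length) * (j / φ.length) := by
      have := Nat.div_add_mod j φ.length
      calc 3 * j + i = 3 * (φ.length * (j / φ.length) + j % φ.length) + i := by rw [this]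
        _ = _ := by ring
    rw [h1, Nat.add_mul_mod_self_left, Nat.mod_eq_of_lt (by omega)]
  have hlit : litAt φ (3 * (j % φ.length) + i) =
      (lits (φ.getD (j % φ.length) ((0, true), (0, true), (0, true))))[i] := by
    unfold litAt
    rw [show (3 * (j % φ.length) + i) / 3 = j % φ.length by omega,
      show (3 * (j % φ.length) + i) % 3 = i by omega,
      List.getD_eq_getElem?_getD (l := lits _), List.getElem?_eq_getElem hi]
    rfl
  unfold varF sgF
  rw [hmod, hlit]
  unfold LitTrue at hl'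
  rw [Bool.eq_iff_iff, decide_eq_true_eq]
  exact hl'

/-- the assignment read off from a partition -/
def ext (φ : List Clause) (L : List ℕ) : List ℕ :=
  ((List.range (nn φ)).filter fun a => !decide (L.getD a 0 = L.getD (nn φ + a) 0)).map (varF φ)

/-- every partition gives an assignment with few unsatisfied clauses -/
theorem unsat_bad {φ : List Clause} {B : ℕ} (hB0 : 0 < B) (hB : ∀ x, (occ φ).count x ≤ B)
    (π : Finpartition (Finset.univ : Finset (Fin (GA φ).length))) {A : List ℕ}
    (hA : ∀ v, v ∈ A ↔ asg (fun v : Fin (GA φ).length => labF (nn φ) v) π (varF φ) (nn φ) v = true) :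
    unsat φ A ≤ (bad (graph (GA φ)) (fun v : Fin (GA φ).length => labF (nn φ) v) π).card *
      (3 * B) := by
  classical
  refine le_trans ?_ (unsat_le (isG φ) (K := 3 * B) (by omega) (fun a _ => cnt_le hB a) π)
  have h1 : unsat φ A = ((List.range φ.length).filter fun j =>
      !decide (ClauseSat A (φ.getD j ((0, true), (0, true), (0, true))))).length := by
    have e1 := unsat_add φ A
    rw [numSat_eq] at e1
    have e2 := List.length_eq_length_filter_add (l := List.range φ.length)
      (fun j => decide (ClauseSat A (φ.getD j ((0, true), (0, true), (0, true)))))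
    rw [List.length_range] at e2
    omega
  rw [h1, card_filter_range]
  refine Finset.card_le_card ?_
  intro j hj
  rw [Finset.mem_filter, Finset.mem_range] at hj ⊢
  obtain ⟨hj1, hj2⟩ := hj
  refine ⟨by unfold nn; omega, ?_⟩
  intro a ha haj hc
  have hns : ¬ ClauseSat A (φ.getD j ((0, true), (0, true), (0, true))) := by simpa using hj2
  apply hns
  refine ⟨litAt φ a, ?_, ?_⟩
  · rw [← haj]
    exact litAt_mem φ a
  · have hmod : a % (3 * φ.length) = a := Nat.mod_eq_of_lt (by omega)
    unfold varF sgF at hc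
    rw [hmod] at hc
    unfold LitTrue
    rw [hA, ← Bool.eq_iff_iff]
    exact hc

theorem exists_list (φ : List Clause)
    (π : Finpartition (Finset.univ : Finset (Fin (GA φ).length))) : ∃ A : List ℕ,
    ∀ v, v ∈ A ↔ asg (fun v : Fin (GA φ).length => labF (nn φ) v) π (varF φ) (nn φ) v = true := by
  classical
  refine ⟨((List.range (nn φ)).filter fun a =>
    decide (¬ Tog (fun v : Fin (GA φ).length => labF (nn φ) v) π a)).map (varF φ), fun v => ?_⟩
  rw [asg_iff, List.mem_map]
  constructor
  · rintro ⟨a, ha, rfl⟩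
    rw [List.mem_filter, List.mem_range, decide_eq_true_eq] at ha
    exact ⟨a, ha.1, rfl, ha.2⟩
  · rintro ⟨a, ha, hav, ht⟩
    exact ⟨a, List.mem_filter.2 ⟨List.mem_range.2 ha, decide_eq_true ht⟩, hav⟩

theorem mem_ofSetoid {N : ℕ} (f : Fin N → ℕ) [DecidableRel (Setoid.ker f).r] (x y : Fin N) :
    y ∈ (Finpartition.ofSetoid (Setoid.ker f)).part x ↔ f x = f y :=
  Finpartition.mem_part_ofSetoid_iff_rel

theorem mem_ofColours {N : ℕ} (L : List ℕ) (x y : Fin N) :
    y ∈ (ofColours L : Finpartition (Finset.univ : Finset (Fin N))).part x ↔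
      L.getD x 0 = L.getD y 0 := by
  unfold ofColours
  exact @mem_ofSetoid N (fun v : Fin N => L.getD v 0) (fun u v =>
    inferInstanceAs (Decidable (L.getD u 0 = L.getD v 0))) x y

theorem tog_iff (φ : List Clause) (L : List ℕ) {a : ℕ} (ha : a < nn φ) :
    Tog (fun v : Fin (GA φ).length => labF (nn φ) v) (ofColours L) a ↔
      L.getD a 0 = L.getD (nn φ + a) 0 := by
  have h3 : nn φ % 3 = 0 := by unfold nn; omega
  have hlen := GA_length φ
  have hmem : ∀ x y : Fin (GA φ).length, y ∈ (ofColours L : Finpartition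
      (Finset.univ : Finset (Fin (GA φ).length))).part x ↔ L.getD x 0 = L.getD y 0 :=
    fun x y => mem_ofColours L x y
  constructor
  · rintro ⟨P, hP, ⟨x, hx, hx'⟩, ⟨y, hy, hy'⟩⟩
    have e1 : (x : ℕ) = a := by
      have := ix_lab h3 (v := (x : ℕ)) (by have := x.2; omega)
      simp only at hx'
      rw [hx'] at this
      exact this.symm
    have e2 : (y : ℕ) = nn φ + a := by
      have := ix_lab h3 (v := (y : ℕ)) (by have := y.2; omega)
      simp only at hy'
      rw [hy'] at this
      exact this.symm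
    rw [← Finpartition.part_eq_of_mem _ hP hx, hmem, e1, e2] at hy
    exact hy
  · intro h
    refine ⟨(ofColours L).part ⟨a, by omega⟩, Finpartition.part_mem _ |>.2 (Finset.mem_univ _),
      ⟨⟨a, by omega⟩, Finpartition.mem_part _ (Finset.mem_univ _), ?_⟩,
      ⟨⟨nn φ + a, by omega⟩, (hmem _ _).2 h, ?_⟩⟩
    · exact lab_ix h3 (X := .A a) ha
    · exact lab_ix h3 (X := .B a) ha

theorem mem_ext (φ : List Clause) (L : List ℕ) (v : ℕ) : v ∈ ext φ L ↔
    asg (fun v : Fin (GA φ).length => labF (nn φ) v) (ofColours L) (varF φ) (nn φ) v = true := by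
  rw [asg_iff]
  unfold ext
  rw [List.mem_map]
  constructor
  · rintro ⟨a, ha, rfl⟩
    rw [List.mem_filter, List.mem_range] at ha
    refine ⟨a, ha.1, rfl, ?_⟩
    rw [tog_iff φ L ha.1]
    simpa using ha.2
  · rintro ⟨a, ha, hav, ht⟩
    rw [tog_iff φ L ha] at ht
    exact ⟨a, List.mem_filter.2 ⟨List.mem_range.2 ha, by simpa using ht⟩, hav⟩

/-- the gap -/
noncomputable def gp : ℝ := 1 / (3456 * DP.K0 * (3 * Pool.Agent.H243R3.PCP.Bd))

theorem K0_pos : 0 < DP.K0 := by
  unfold DP.K0 Pool.Agent.H243R3.PCP.c1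
  norm_num

theorem Bd_pos : 0 < Pool.Agent.H243R3.PCP.Bd := by
  unfold Pool.Agent.H243R3.PCP.Bd
  norm_num

theorem gp_pos : 0 < gp := by
  unfold gp
  have h1 : (0 : ℝ) < DP.K0 := by exact_mod_cast K0_pos
  have h2 : (0 : ℝ) < Pool.Agent.H243R3.PCP.Bd := by exact_mod_cast Bd_pos
  positivity

theorem density_bad (φ : List Clause)
    (π : Finpartition (Finset.univ : Finset (Fin (GA φ).length))) :
    density (graph (GA φ)) π ≤ 2 * (nn φ : ℝ) -
      ((bad (graph (GA φ)) (fun v : Fin (GA φ).length => labF (nn φ) v) π).card : ℝ) / 96 := by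
  refine (density_le (isG φ) π).trans (le_of_eq ?_)
  have h : (((GA φ).length : ℕ) : ℝ) = 6 * (nn φ : ℝ) := by
    rw [GA_length]
    push_cast
    ring
  rw [h]
  ring

theorem ar1 {g k c m n : ℝ} (hg : g = 1 / (3456 * k * (3 * c))) (hk : 0 < k) (hc : 0 < c)
    (hn : n = 9 * m) : g * (2 * n) = m / (k * (3 * c)) / 192 := by
  subst hg hn
  field_simp
  ring

theorem ar2 {g k c m n b : ℝ} (hg : g = 1 / (3456 * k * (3 * c))) (hk : 0 < k) (hc : 0 < c)
    (hn : n = 9 * m) (hm : 0 < m) (h : m ≤ k * (b * (3 * c))) :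
    2 * n - b / 96 < (1 - g) * (2 * n) := by
  have h6 : m / (k * (3 * c)) ≤ b := by
    rw [div_le_iff₀ (by positivity)]
    linarith
  have h7 := ar1 hg hk hc hn
  have h8 : 0 < m / (k * (3 * c)) := by positivity
  have h9 : (1 - g) * (2 * n) = 2 * n - g * (2 * n) := by ring
  rw [h9, h7]
  linarith

theorem ar3 {g k c m n b u : ℝ} (hg : g = 1 / (3456 * k * (3 * c))) (hk : 0 < k) (hc : 0 < c)
    (hn : n = 9 * m) (hm : 0 < m) (h : (1 - g) * (2 * n) ≤ 2 * n - b / 96)
    (hu : u ≤ b * (3 * c)) : k * u < m := by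
  have h7 := ar1 hg hk hc hn
  have h9 : (1 - g) * (2 * n) = 2 * n - g * (2 * n) := by ring
  rw [h9, h7] at h
  have h8 : b ≤ m / (k * (3 * c)) / 2 := by linarith
  calc k * u ≤ k * (b * (3 * c)) := mul_le_mul_of_nonneg_left hu hk.le
    _ ≤ k * (m / (k * (3 * c)) / 2 * (3 * c)) :=
        mul_le_mul_of_nonneg_left (mul_le_mul_of_nonneg_right h8 (by positivity)) hk.le
    _ = m / 2 := by
        field_simp
    _ < m := by linarith

/-- many unsatisfied clauses -/
theorem no {φ : List Clause} (hφ : φ ≠ [])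
    (hB : ∀ x, (occ φ).count x ≤ Pool.Agent.H243R3.PCP.Bd)
    (h : ∀ A, φ.length ≤ DP.K0 * unsat φ A)
    (π : Finpartition (Finset.univ : Finset (Fin (GA φ).length))) :
    density (graph (GA φ)) π < (1 - gp) * (2 * (nn φ : ℝ)) := by
  obtain ⟨A, hA⟩ := exists_list φ π
  have h1 := unsat_bad Bd_pos hB π hA
  have h2 := h A
  have h3 := density_bad φ π
  have h4 := h2.trans (Nat.mul_le_mul_left _ h1)
  have hnn : (nn φ : ℝ) = 9 * (φ.length : ℝ) := by unfold nn; push_cast; ring
  refine h3.trans_lt (ar2 (m := (φ.length : ℝ)) gp.eq_1 (Nat.cast_pos.2 K0_pos)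
    (Nat.cast_pos.2 Bd_pos) hnn (Nat.cast_pos.2 (List.length_pos_of_ne_nil hφ)) ?_)
  exact_mod_cast h4

/-- a partition of large density gives a good assignment -/
theorem good_ext {φ : List Clause} (hφ : φ ≠ [])
    (hB : ∀ x, (occ φ).count x ≤ Pool.Agent.H243R3.PCP.Bd) {L : List ℕ}
    (h : (1 - gp) * (2 * (nn φ : ℝ)) ≤ density (graph (GA φ)) (ofColours L)) :
    DP.K0 * unsat φ (ext φ L) < φ.length := by
  have h1 := unsat_bad Bd_pos hB (ofColours L) (mem_ext φ L)
  have h3 := h.trans (density_bad φ (ofColours L))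
  have hnn : (nn φ : ℝ) = 9 * (φ.length : ℝ) := by unfold nn; push_cast; ring
  have h4 : (DP.K0 : ℝ) * (unsat φ (ext φ L) : ℝ) < (φ.length : ℝ) :=
    ar3 gp.eq_1 (Nat.cast_pos.2 K0_pos) (Nat.cast_pos.2 Bd_pos) hnn
      (Nat.cast_pos.2 (List.length_pos_of_ne_nil hφ)) h3 (by exact_mod_cast h1)
  exact_mod_cast h4

theorem poly_unsat : NPC.Poly (fun z : List Clause × List ℕ => unsat z.1 z.2) := by
  have h : (fun z : List Clause × List ℕ => unsat z.1 z.2) = fun z : List Clause × List ℕ =>
      (z.1.filter fun c => !((!xor (decide (c.1.1 ∈ z.2)) c.1.2) ||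
        ((!xor (decide (c.2.1.1 ∈ z.2)) c.2.1.2) || (!xor (decide (c.2.2.1 ∈ z.2)) c.2.2.2)))).length := by
    funext z
    unfold unsat
    rw [List.countP_eq_length_filter]
    congr 1
    refine List.filter_congr fun c _ => ?_
    congr 1
    rw [Bool.eq_iff_iff, decide_eq_true_eq]
    unfold ClauseSat lits LitTrue
    simp only [List.mem_cons, List.not_mem_nil, or_false, exists_eq_or_imp, exists_eq_left,
      Bool.or_eq_true]
    have key : ∀ (p : Prop) [Decidable p] (b : Bool), (p ↔ b = true) ↔ (!xor (decide p) b) = true := by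
      intro p _ b
      by_cases hp : p <;> cases b <;> simp [hp]
    rw [key, key, key]
  rw [h]
  have h1 : NPC.Poly (fun p : (List Clause × List ℕ) × Clause => p.1.2) :=
    Poly.snd (Poly.fst Poly.id)
  refine Poly.length (Poly.filter (p := fun (z : List Clause × List ℕ) (c : Clause) =>
    !((!xor (decide (c.1.1 ∈ z.2)) c.1.2) ||
        ((!xor (decide (c.2.1.1 ∈ z.2)) c.2.1.2) || (!xor (decide (c.2.2.1 ∈ z.2)) c.2.2.2))))
    (Poly.fst Poly.id) ?_)
  fun_prop

theorem poly_ext {α : Type} [TEnc α] {φ : α → List Clause} {L : α → List ℕ} (hφ : NPC.Poly φ)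
    (hL : NPC.Poly L) : NPC.Poly (fun a => ext (φ a) (L a)) := by
  unfold ext
  have hR := (uPoly_nn hφ).range
  refine NPC.Poly.map (F := fun a b => varF (φ a) b) (Poly.filter (p := fun a b =>
    !decide ((L a).getD b 0 = (L a).getD (nn (φ a) + b) 0)) hR ?_) ?_
  · have h1 : NPC.Poly (fun p : α × ℕ => nn (φ p.1)) :=
      (uPoly_nn hφ).toPoly.comp (Poly.fst Poly.id)
    have h2 : NPC.Poly (fun p : α × ℕ => L p.1) := hL.comp (Poly.fst Poly.id)
    fun_prop
  · exact poly_varF (hφ.comp (Poly.fst Poly.id)) (Poly.snd Poly.id)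

/-- the gap problem for Dense Graph Partition is `NP`-hard -/
theorem gapDG {L : Set (List Bool)} (hL : InNP L) :
    ∃ (f : List Bool → List (List ℕ)) (k : List Bool → ℕ),
      NPC.Poly (fun x => (f x, k x)) ∧ ∀ x,
        (x ∈ L → ∃ π : Finpartition (Finset.univ : Finset (Fin (f x).length)),
          (k x : ℝ) ≤ density (graph (f x)) π) ∧
        (x ∉ L → ∀ π : Finpartition (Finset.univ : Finset (Fin (f x).length)),
          density (graph (f x)) π < (1 - gp) * k x) := by
  obtain ⟨V, p, hV, hVL⟩ := hL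
  obtain ⟨red, ex, hr1, _, hr3⟩ := DP.pcp hV p
  refine ⟨fun x => GA (red x), fun x => 2 * nn (red x), ?_, fun x => ?_⟩
  · exact Poly.pair (poly_GA.comp hr1) (UPoly.mul (UPoly.const 2) (uPoly_nn hr1)).toPoly
  obtain ⟨⟨a1, a2⟩, a3, a4⟩ := hr3 x
  refine ⟨fun hx => ?_, fun hx π => ?_⟩
  · obtain ⟨A, _, hA⟩ := a3 ((hVL x).1 hx)
    obtain ⟨π, hπ⟩ := yes hA
    refine ⟨π, ?_⟩
    push_cast
    exact hπ
  · have h := no a1 a2 (fun A => by
      by_contra hc
      push Not at hc
      apply hx
      rw [hVL x]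
      exact ⟨_, (a4 A hc).1, (a4 A hc).2⟩) π
    push_cast
    exact h

/-- an approximation algorithm with the guarantee `1 - gp` implies `P = NP` -/
theorem collapse (h : Approx (1 - gp)) {L : Set (List Bool)} (hL : InNP L) : InP L := by
  obtain ⟨F, hF, hFs⟩ := h
  obtain ⟨V, p, hV, hVL⟩ := hL
  obtain ⟨red, ex, hr1, _, hr3⟩ := DP.pcp hV p
  let d : List Bool → Bool := fun x => (unbits (List ℕ) (F (bits (GA (red x))))).any
    fun S => decide (DP.K0 * unsat (red x) (ext (red x) S) < (red x).length)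
  have hd : NPC.Poly d := by
    refine Poly.optAny_fp (o := fun x => unbits (List ℕ) (F (bits (GA (red x)))))
      (h := fun x S => decide (DP.K0 * unsat (red x) (ext (red x) S) < (red x).length)) ?_ ?_
    · exact poly_unbits.comp ((Pool.Agent.H622R2.poly_of_polyTime hF).comp
        (R671.poly_bits.comp (poly_GA.comp hr1)))
    · have e1 : NPC.Poly (fun p : List Bool × List ℕ => red p.1) := hr1.comp (Poly.fst Poly.id)
      have e2 := poly_ext e1 (Poly.snd Poly.id)
      have e3 := poly_unsat.comp (Poly.pair e1 e2)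
      have e4 : NPC.Poly (fun p : List Bool × List ℕ => (red p.1).length) := Poly.length e1
      exact Poly.decide_lt (Poly.mul (NPC.Poly.const DP.K0) e3) e4
  refine ⟨fun x => [d x], polyTime_of_poly hd, fun x => ?_⟩
  have hdx : [d x] = [true] ↔ d x = true := by simp
  rw [hdx]
  obtain ⟨⟨a1, a2⟩, a3, a4⟩ := hr3 x
  obtain ⟨S, hS1, hS2⟩ := hFs (GA (red x))
  have hdS : d x = true ↔ DP.K0 * unsat (red x) (ext (red x) S) < (red x).length := by
    simp only [d]
    rw [hS1, unbits_bits]
    simp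
  rw [hdS]
  constructor
  · intro hxL
    obtain ⟨A, _, hA⟩ := a3 ((hVL x).1 hxL)
    obtain ⟨π, hπ⟩ := yes hA
    refine good_ext a1 a2 (le_trans (mul_le_mul_of_nonneg_left hπ ?_) (hS2 π))
    have h1 : (1 : ℝ) ≤ DP.K0 := by exact_mod_cast K0_pos
    have h2 : (1 : ℝ) ≤ Pool.Agent.H243R3.PCP.Bd := by exact_mod_cast Bd_pos
    unfold gp
    rw [sub_nonneg, div_le_one (by positivity)]
    nlinarith
  · intro hlt
    rw [hVL x]
    exact ⟨_, (a4 _ hlt).1, (a4 _ hlt).2⟩

end Pool.Agent.R550.DG
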