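import Mathlib

set_option autoImplicit false

/-!
# Cyclic order of the occurrences of a variable
-/

namespace Pool.Agent.R550.DG

/-- number of earlier positions with the same variable -/
def rk (var : ℕ → ℕ) (n a : ℕ) : ℕ := ((Finset.range n).filter fun b => b < a ∧ var b = var a).card

/-- number of positions with the same variable -/
def cnt (var : ℕ → ℕ) (n a : ℕ) : ℕ := ((Finset.range n).filter fun b => var b = var a).card

/-- `b` is the next position after `a` with the same variable, cyclically -/
def nx (var : ℕ → ℕ) (n a b : ℕ) : Bool :=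
  decide (var a = var b) && decide (rk var n b = (rk var n a + 1) % cnt var n a)

variable {var : ℕ → ℕ} {n : ℕ}

theorem nx_iff {a b : ℕ} : nx var n a b = true ↔
    var a = var b ∧ rk var n b = (rk var n a + 1) % cnt var n a := by
  simp [nx]

theorem cnt_congr {a b : ℕ} (h : var a = var b) : cnt var n a = cnt var n b := by
  unfold cnt
  rw [h]

theorem rk_lt {a : ℕ} (ha : a < n) : rk var n a < cnt var n a := by
  refine Finset.card_lt_card ?_
  rw [Finset.ssubset_iff_of_subset]
  · exact ⟨a, by simp [ha], by simp⟩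
  · intro b hb
    simp only [Finset.mem_filter] at hb ⊢
    exact ⟨hb.1, hb.2.2⟩

theorem rk_mono {a b : ℕ} (ha : a < n) (h : var a = var b) (hab : a < b) :
    rk var n a < rk var n b := by
  refine Finset.card_lt_card ?_
  rw [Finset.ssubset_iff_of_subset]
  · exact ⟨a, by simp [ha, hab, h], by simp⟩
  · intro c hc
    simp only [Finset.mem_filter] at hc ⊢
    exact ⟨hc.1, hc.2.1.trans hab, hc.2.2.trans h⟩

theorem rk_inj {a b : ℕ} (ha : a < n) (hb : b < n) (h : var a = var b)
    (hr : rk var n a = rk var n b) : a = b := by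
  rcases lt_trichotomy a b with h1 | h1 | h1
  · have := rk_mono ha h h1
    omega
  · exact h1
  · have := rk_mono hb h.symm h1
    omega

theorem rk_surj {a r : ℕ} (hr : r < cnt var n a) : ∃ b < n, var b = var a ∧ rk var n b = r := by
  have h1 : ((Finset.range n).filter fun b => var b = var a).image (rk var n) =
      Finset.range (cnt var n a) := by
    refine Finset.eq_of_subset_of_card_le ?_ ?_
    · intro r hr
      obtain ⟨b, hb, rfl⟩ := Finset.mem_image.1 hr
      rw [Finset.mem_filter, Finset.mem_range] at hb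
      rw [Finset.mem_range, ← cnt_congr hb.2]
      exact rk_lt hb.1
    · rw [Finset.card_range, Finset.card_image_of_injOn]
      · rfl
      · intro b hb c hc hbc
        simp only [Finset.coe_filter, Finset.mem_range, Set.mem_setOf_eq] at hb hc
        exact rk_inj hb.1 hc.1 (hb.2.trans hc.2.symm) hbc
  have h2 : r ∈ ((Finset.range n).filter fun b => var b = var a).image (rk var n) := by
    rw [h1, Finset.mem_range]
    exact hr
  obtain ⟨b, hb, hbr⟩ := Finset.mem_image.1 h2
  rw [Finset.mem_filter, Finset.mem_range] at hb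
  exact ⟨b, hb.1, hb.2, hbr⟩

theorem nx_ex {a : ℕ} (ha : a < n) : ∃ b < n, nx var n a b = true := by
  have h0 := rk_lt (var := var) ha
  obtain ⟨b, hb, h1, h2⟩ := rk_surj (var := var) (a := a)
    (Nat.mod_lt (rk var n a + 1) (lt_of_le_of_lt (Nat.zero_le _) h0))
  exact ⟨b, hb, nx_iff.2 ⟨h1.symm, h2⟩⟩

theorem nx_unique {a b c : ℕ} (hb : b < n) (hc : c < n) (h : nx var n a b = true)
    (h' : nx var n a c = true) : b = c := by
  rw [nx_iff] at h h'
  exact rk_inj hb hc (h.1.symm.trans h'.1) (h.2.trans h'.2.symm)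

theorem nx_inj {a b c : ℕ} (ha : a < n) (hb : b < n) (h : nx var n a c = true)
    (h' : nx var n b c = true) : a = b := by
  rw [nx_iff] at h h'
  have hv : var a = var b := h.1.trans h'.1.symm
  refine rk_inj ha hb hv ?_
  have h1 := rk_lt (var := var) ha
  have h2 := rk_lt (var := var) hb
  have h3 := h.2.symm.trans h'.2
  rw [cnt_congr hv] at h3 h1
  have h4 : (rk var n a + 1) % cnt var n b = (rk var n b + 1) % cnt var n b := h3
  have h5 : rk var n a ≡ rk var n b [MOD cnt var n b] := Nat.ModEq.add_right_cancel' 1 h4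
  exact Nat.ModEq.eq_of_lt_of_lt h5 h1 h2

theorem nx_pre {b : ℕ} (hb : b < n) : ∃ a < n, nx var n a b = true := by
  have h0 := rk_lt (var := var) hb
  have hc : 0 < cnt var n b := by omega
  obtain ⟨a, ha, h1, h2⟩ := rk_surj (var := var) (a := b)
    (Nat.mod_lt (rk var n b + cnt var n b - 1) hc)
  refine ⟨a, ha, nx_iff.2 ⟨h1, ?_⟩⟩
  rw [h2, cnt_congr h1]
  rw [Nat.mod_add_mod]
  have : rk var n b + cnt var n b - 1 + 1 = rk var n b + cnt var n b := by omega
  rw [this, Nat.add_mod_right, Nat.mod_eq_of_lt h0]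

theorem nx_ne {a b : ℕ} (ha : a < n) (h3 : 3 ≤ cnt var n a) (h : nx var n a b = true) :
    a ≠ b := by
  rintro rfl
  rw [nx_iff] at h
  have h1 := rk_lt (var := var) ha
  have h2 := h.2
  by_cases h4 : rk var n a + 1 < cnt var n a
  · rw [Nat.mod_eq_of_lt h4] at h2
    omega
  · have h5 : rk var n a + 1 = cnt var n a := by omega
    rw [h5, Nat.mod_self] at h2
    omega

theorem nx_ne2 {a b c : ℕ} (ha : a < n) (h3 : 3 ≤ cnt var n a) (h : nx var n a b = true)
    (h' : nx var n b c = true) : a ≠ c := by
  rintro rfl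
  rw [nx_iff] at h h'
  have h1 := rk_lt (var := var) ha
  have h2 := h.2
  have h2' := h'.2
  rw [h2, cnt_congr h'.1, Nat.mod_add_mod] at h2'
  have h6 : rk var n a + 1 + 1 = rk var n a + 2 := rfl
  rw [h6] at h2'
  by_cases h4 : rk var n a + 2 < cnt var n a
  · rw [Nat.mod_eq_of_lt h4] at h2'
    omega
  · have h5 : rk var n a + 2 = cnt var n a + (rk var n a + 2 - cnt var n a) := by omega
    rw [h5, Nat.add_mod_left, Nat.mod_eq_of_lt (by omega)] at h2'
    omega

/-- a set of positions which is closed under `nx` contains all positions of the variable -/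
theorem nx_closed {S : ℕ → Prop} (hS : ∀ a b, a < n → b < n → S a → nx var n a b = true → S b)
    {a b : ℕ} (ha : a < n) (hb : b < n) (hab : var a = var b) (hSa : S a) : S b := by
  have h1 : ∀ i, ∃ c < n, var c = var a ∧ rk var n c = (rk var n a + i) % cnt var n a ∧ S c := by
    intro i
    induction i with
    | zero =>
      refine ⟨a, ha, rfl, ?_, hSa⟩
      rw [Nat.add_zero, Nat.mod_eq_of_lt (rk_lt ha)]
    | succ i ih =>
      obtain ⟨c, hc, h1, h2, h3⟩ := ih
      obtain ⟨d, hd, h4⟩ := nx_ex (var := var) hc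
      have h5 := nx_iff.1 h4
      refine ⟨d, hd, h5.1.symm.trans h1, ?_, hS c d hc hd h3 h4⟩
      rw [h5.2, h2, cnt_congr h1, Nat.mod_add_mod]
      rfl
  have hra := rk_lt (var := var) ha
  have hrb := rk_lt (var := var) hb
  rw [← cnt_congr hab] at hrb
  obtain ⟨c, hc, h2, h3, h4⟩ := h1 (cnt var n a - rk var n a + rk var n b)
  have h5 : rk var n a + (cnt var n a - rk var n a + rk var n b) = cnt var n a + rk var n b := by
    omega
  rw [h5, Nat.add_mod_left, Nat.mod_eq_of_lt hrb] at h3
  have := rk_inj hc hb (h2.trans hab) h3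
  rwa [← this]

end Pool.Agent.R550.DG
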