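import Pool.Agent.R550.DG.Value

set_option autoImplicit false

/-!
# From a partition to an assignment
-/

namespace Pool.Agent.R550.DG

variable {N : ℕ} {G : SimpleGraph (Fin N)} {lab : Fin N → W} {var : ℕ → ℕ} {sg : ℕ → Bool} {n : ℕ}

/-- two different vertices of a triangle are adjacent -/
theorem Tri.adj {P : Finset (Fin N)} (h : Tri G lab P) {y z : Fin N} (hy : y ∈ P) (hz : z ∈ P)
    (hyz : y ≠ z) : G.Adj y z := by
  classical
  obtain ⟨h1, h2, h3⟩ := h
  have hc : P.card = 3 := by have := card_co_ti lab P; omega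
  have hsub : ((P ×ˢ P).filter fun q => G.Adj q.1 q.2) ⊆ P.offDiag := by
    rintro ⟨a, b⟩ hab
    rw [Finset.mem_filter, Finset.mem_product] at hab
    exact Finset.mem_offDiag.2 ⟨hab.1.1, hab.1.2, hab.2.ne⟩
  have heq := Finset.eq_of_subset_of_card_le hsub (by
    rw [Finset.offDiag_card, hc]
    have : eo G P = ((P ×ˢ P).filter fun q => G.Adj q.1 q.2).card := by
      unfold eo
      congr 
    omega)
  have hm : (y, z) ∈ P.offDiag := Finset.mem_offDiag.2 ⟨hy, hz, hyz⟩
  rw [← heq] at hm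
  exact (Finset.mem_filter.1 hm).2

/-- there is a tip -/
theorem Tri.tip {P : Finset (Fin N)} (h : Tri G lab P) : ∃ t ∈ P, tip (lab t) = true := by
  obtain ⟨t, ht⟩ := Finset.card_pos.1 (by rw [h.2.1]; norm_num : 0 < (ti lab P).card)
  unfold ti at ht
  rw [Finset.mem_filter] at ht
  exact ⟨t, ht⟩

/-- there is another core vertex -/
theorem Tri.core {P : Finset (Fin N)} (h : Tri G lab P) (x : Fin N) :
    ∃ y ∈ P, y ≠ x ∧ DG.tip (lab y) = false := by
  classical
  have h1 : 0 < ((co lab P).erase x).card := by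
    have := Finset.pred_card_le_card_erase (s := co lab P) (a := x)
    rw [h.1] at this
    omega
  obtain ⟨y, hy⟩ := Finset.card_pos.1 h1
  rw [Finset.mem_erase] at hy
  have h2 := hy.2
  unfold co at h2
  rw [Finset.mem_filter] at h2
  exact ⟨y, h2.1, hy.1, h2.2⟩

/-- there are only two core vertices -/
theorem Tri.no3 {P : Finset (Fin N)} (h : Tri G lab P) {x y z : Fin N} (hx : x ∈ P) (hy : y ∈ P)
    (hz : z ∈ P) (hx' : DG.tip (lab x) = false) (hy' : DG.tip (lab y) = false)
    (hz' : DG.tip (lab z) = false) (hxy : x ≠ y) (hxz : x ≠ z) (hyz : y ≠ z) : False := by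
  classical
  have hsub : ({x, y, z} : Finset (Fin N)) ⊆ co lab P := by
    intro w hw
    simp only [Finset.mem_insert, Finset.mem_singleton] at hw
    unfold co
    rw [Finset.mem_filter]
    rcases hw with rfl | rfl | rfl
    · exact ⟨hx, hx'⟩
    · exact ⟨hy, hy'⟩
    · exact ⟨hz, hz'⟩
  have h1 := Finset.card_le_card hsub
  rw [h.1, Finset.card_insert_of_notMem, Finset.card_insert_of_notMem,
    Finset.card_singleton] at h1
  · omega
  · simp [hyz]
  · simp [hxy, hxz]

/-- the part has a vertex with the label `X` -/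
def Has (lab : Fin N → W) (P : Finset (Fin N)) (X : W) : Prop := ∃ x ∈ P, lab x = X

theorem Tri.R {P : Finset (Fin N)} (hG : IsG G lab var sg n) (h : Tri G lab P) {X Y : W}
    (hX : Has lab P X) (hY : Has lab P Y) (hXY : X ≠ Y) :
    DG.R var sg n X Y = true ∨ DG.R var sg n Y X = true := by
  obtain ⟨x, hx, rfl⟩ := hX
  obtain ⟨y, hy, rfl⟩ := hY
  exact (hG.adj x y).1 (h.adj hx hy (by rintro rfl; exact hXY rfl))

theorem Tri.tip' {P : Finset (Fin N)} (hG : IsG G lab var sg n) (h : Tri G lab P) :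
    ∃ s a, a < n ∧ Has lab P (.T s a) ∧
      ∀ X, Has lab P X → DG.tip X = false → DG.R var sg n (.T s a) X = true := by
  obtain ⟨t, ht, ht'⟩ := h.tip
  cases hlt : lab t with
  | A a => rw [hlt] at ht'; simp [DG.tip] at ht'
  | B a => rw [hlt] at ht'; simp [DG.tip] at ht'
  | Q j i u => rw [hlt] at ht'; simp [DG.tip] at ht'
  | T s a =>
    refine ⟨s, a, ?_, ⟨t, ht, hlt⟩, ?_⟩
    · have := hG.ok t
      rw [hlt] at this
      exact this
    intro X hX hX'
    rcases h.R hG ⟨t, ht, hlt⟩ hX (by rintro rfl; simp [DG.tip] at hX') with h1 | h1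
    · exact h1
    · rw [R_tip (by simp [DG.tip])] at h1
      simp at h1

theorem Tri.ringA {P : Finset (Fin N)} (hG : IsG G lab var sg n) (h : Tri G lab P) {a : ℕ}
    (ha : a < n) (h1 : Has lab P (.A a)) (h2 : Has lab P (.B a)) : Has lab P (.T true a) := by
  obtain ⟨s, c, _, h3, h4⟩ := h.tip' hG
  have h5 := h4 _ h1 rfl
  have h6 := h4 _ h2 rfl
  cases s with
  | true =>
    simp only [DG.R, decide_eq_true_eq] at h5
    rwa [h5] at h3
  | false =>
    simp only [DG.R, decide_eq_true_eq] at h5 h6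
    subst h6
    exact absurd rfl (nx_ne ha (hG.c3 _ ha) h5)

theorem Tri.ringB {P : Finset (Fin N)} (hG : IsG G lab var sg n) (h : Tri G lab P) {a b : ℕ}
    (ha : a < n) (hab : nx var n a b = true) (h1 : Has lab P (.A b)) (h2 : Has lab P (.B a)) :
    Has lab P (.T false a) := by
  obtain ⟨s, c, _, h3, h4⟩ := h.tip' hG
  have h5 := h4 _ h1 rfl
  have h6 := h4 _ h2 rfl
  cases s with
  | false =>
    simp only [DG.R, decide_eq_true_eq] at h5 h6
    rwa [h6] at h3
  | true =>
    simp only [DG.R, decide_eq_true_eq] at h5 h6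
    exact absurd (h6.symm.trans h5) (nx_ne ha (hG.c3 _ ha) hab)

theorem Tri.clause {P : Finset (Fin N)} (hG : IsG G lab var sg n) (h : Tri G lab P) {j : ℕ}
    {u : Bool} (h1 : Has lab P (.Q j 0 u)) : ∃ a < n, a / 3 = j ∧ Has lab P (.T (sg a) a) := by
  obtain ⟨s, c, hc, h3, h4⟩ := h.tip' hG
  have h5 := h4 _ h1 rfl
  refine ⟨c, hc, ?_⟩
  cases s <;> simp [DG.R] at h5 <;> exact ⟨h5.1, by rw [h5.2]; exact h3⟩

/-- the other core vertex of the part of `A a` -/
theorem Tri.fromA {P : Finset (Fin N)} (hG : IsG G lab var sg n) (h : Tri G lab P) {a : ℕ}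
    (h1 : Has lab P (.A a)) :
    Has lab P (.B a) ∨ ∃ b < n, nx var n b a = true ∧ Has lab P (.B b) := by
  obtain ⟨x, hx, hxa⟩ := h1
  obtain ⟨y, hy, hyx, hy'⟩ := h.core x
  have hok := hG.ok y
  have hne : lab y ≠ lab x := fun h => hyx (hG.inj h)
  rcases h.R hG ⟨x, hx, rfl⟩ ⟨y, hy, rfl⟩ hne.symm with h2 | h2 <;> rw [hxa] at h2
  · cases hly : lab y <;> rw [hly] at h2 hy' <;> simp [DG.R, DG.tip] at h2 hy'
    left
    rw [h2]
    exact ⟨y, hy, hly⟩
  · cases hly : lab y with
    | A b => rw [hly] at h2; simp [DG.R] at h2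
    | B b =>
      rw [hly] at h2 hok
      simp only [DG.R] at h2
      exact Or.inr ⟨b, hok, h2, y, hy, hly⟩
    | T s b => rw [hly] at hy'; simp [DG.tip] at hy'
    | Q j i u => rw [hly] at h2; cases u <;> simp [DG.R] at h2

/-- the other core vertex of the part of `B a` -/
theorem Tri.fromB {P : Finset (Fin N)} (hG : IsG G lab var sg n) (h : Tri G lab P) {a : ℕ}
    (h1 : Has lab P (.B a)) :
    Has lab P (.A a) ∨ ∃ b < n, nx var n a b = true ∧ Has lab P (.A b) := by
  obtain ⟨x, hx, hxa⟩ := h1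
  obtain ⟨y, hy, hyx, hy'⟩ := h.core x
  have hok := hG.ok y
  have hne : lab y ≠ lab x := fun h => hyx (hG.inj h)
  rcases h.R hG ⟨x, hx, rfl⟩ ⟨y, hy, rfl⟩ hne.symm with h2 | h2 <;> rw [hxa] at h2
  · cases hly : lab y with
    | A b =>
      rw [hly] at h2 hok
      simp only [DG.R] at h2
      exact Or.inr ⟨b, hok, h2, y, hy, hly⟩
    | B b => rw [hly] at h2; simp [DG.R] at h2
    | T s b => rw [hly] at hy'; simp [DG.tip] at hy'
    | Q j i u => rw [hly] at h2; cases u <;> simp [DG.R] at h2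
  · cases hly : lab y <;> rw [hly] at h2 hy' <;> simp [DG.R, DG.tip] at h2 hy'
    left
    rw [← h2]
    exact ⟨y, hy, hly⟩

/-- `A a` and `B a` are in the same part -/
def Tog (lab : Fin N → W) (π : Finpartition (Finset.univ : Finset (Fin N))) (a : ℕ) : Prop :=
  ∃ P ∈ π.parts, Has lab P (.A a) ∧ Has lab P (.B a)

/-- a vertex with the label `X` is bad -/
def Bd (G : SimpleGraph (Fin N)) (lab : Fin N → W)
    (π : Finpartition (Finset.univ : Finset (Fin N))) (X : W) : Prop :=
  ∃ x ∈ bad G lab π, lab x = X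

theorem good {π : Finpartition (Finset.univ : Finset (Fin N))} (hG : IsG G lab var sg n) {X : W}
    (hX : Ok n X) (h : ¬ Bd G lab π X) : ∃ P ∈ π.parts, Tri G lab P ∧ Has lab P X := by
  obtain ⟨x, rfl⟩ := hG.surj X hX
  refine ⟨π.part x, π.part_mem.2 (Finset.mem_univ x), ?_, x, π.mem_part (Finset.mem_univ x), rfl⟩
  by_contra hc
  apply h
  refine ⟨x, ?_, rfl⟩
  unfold bad
  classical
  exact Finset.mem_filter.2 ⟨Finset.mem_univ x, hc⟩

/-- parts with a common label are equal -/
theorem parts_eq {π : Finpartition (Finset.univ : Finset (Fin N))} (hG : IsG G lab var sg n)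
    {P P' : Finset (Fin N)} (hP : P ∈ π.parts) (hP' : P' ∈ π.parts) {X : W} (h : Has lab P X)
    (h' : Has lab P' X) : P = P' := by
  obtain ⟨x, hx, rfl⟩ := h
  obtain ⟨y, hy, hxy⟩ := h'
  have := hG.inj hxy
  subst this
  exact (π.part_eq_of_mem hP hx).symm.trans (π.part_eq_of_mem hP' hy)

/-- a part with three different core labels is not a triangle -/
theorem Tri.no3' {P : Finset (Fin N)} (h : Tri G lab P) {X Y Z : W} (hX : Has lab P X)
    (hY : Has lab P Y) (hZ : Has lab P Z) (hX' : DG.tip X = false) (hY' : DG.tip Y = false)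
    (hZ' : DG.tip Z = false) (hXY : X ≠ Y) (hXZ : X ≠ Z) (hYZ : Y ≠ Z) : False := by
  obtain ⟨x, hx, rfl⟩ := hX
  obtain ⟨y, hy, rfl⟩ := hY
  obtain ⟨z, hz, rfl⟩ := hZ
  exact h.no3 hx hy hz hX' hY' hZ' (by rintro rfl; exact hXY rfl) (by rintro rfl; exact hXZ rfl)
    (by rintro rfl; exact hYZ rfl)

section

variable {π : Finpartition (Finset.univ : Finset (Fin N))}

/-- going around the ring -/
theorem tog_nx (hG : IsG G lab var sg n) {a b : ℕ} (ha : a < n) (hb : b < n)
    (hgb : ¬ Bd G lab π (.A b)) (hab : nx var n a b = true) (h : Tog lab π a) : Tog lab π b := by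
  obtain ⟨P, hP, h1, h2⟩ := h
  obtain ⟨P', hP', hT, h3⟩ := good hG (X := .A b) hb hgb
  rcases hT.fromA hG h3 with h4 | ⟨c, hc, hcb, h4⟩
  · exact ⟨P', hP', h3, h4⟩
  · have : c = a := nx_inj hc ha hcb hab
    subst this
    have := parts_eq hG hP hP' h2 h4
    subst this
    have hne : c ≠ b := nx_ne hc (hG.c3 _ hc) hab
    exact (hT.no3' h1 h2 h3 rfl rfl rfl (by simp) (by simp [hne]) (by simp)).elim

/-- the assignment -/
noncomputable def asg (lab : Fin N → W) (π : Finpartition (Finset.univ : Finset (Fin N)))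
    (var : ℕ → ℕ) (n : ℕ) (v : ℕ) : Bool :=
  @decide (∃ a < n, var a = v ∧ ¬ Tog lab π a) (Classical.dec _)

theorem asg_iff {v : ℕ} : asg lab π var n v = true ↔ ∃ a < n, var a = v ∧ ¬ Tog lab π a := by
  unfold asg
  exact @decide_eq_true_iff _ (Classical.dec _)

theorem clause_sat (hG : IsG G lab var sg n) {j : ℕ} (hj : 3 * j < n)
    (hQ : ¬ Bd G lab π (.Q j 0 false))
    (hR : ∀ a < n, a / 3 = j → ∀ b < n, var b = var a → ¬ Bd G lab π (.A b) ∧ ¬ Bd G lab π (.B b)) :
    ∃ a < n, a / 3 = j ∧ asg lab π var n (var a) = sg a := by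
  obtain ⟨P, hP, hT, h1⟩ := good hG (X := .Q j 0 false) ⟨hj, by norm_num⟩ hQ
  obtain ⟨a, ha, haj, h2⟩ := hT.clause hG h1
  refine ⟨a, ha, haj, ?_⟩
  have hR' := hR a ha haj
  cases hs : sg a with
  | true =>
    rw [asg_iff]
    refine ⟨a, ha, rfl, ?_⟩
    rintro ⟨P', hP', h3, h4⟩
    obtain ⟨P'', hP'', hT', h5⟩ := good hG (X := .A a) ha (hR' a ha rfl).1
    have := parts_eq hG hP' hP'' h3 h5
    subst this
    have h6 := hT'.ringA hG ha h3 h4
    rw [hs] at h2
    have := parts_eq hG hP hP' h2 h6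
    subst this
    exact hT.no3' h1 h3 h4 rfl rfl rfl (by simp) (by simp) (by simp)
  | false =>
    rw [Bool.eq_false_iff]
    intro hc
    rw [asg_iff] at hc
    obtain ⟨b, hb, hvb, hb'⟩ := hc
    have hna : ¬ Tog lab π a := by
      intro hta
      apply hb'
      refine nx_closed (var := var) (n := n) (S := fun c => c < n ∧ var c = var a → Tog lab π c)
        ?_ ha hb hvb.symm (fun _ => hta) ⟨hb, hvb⟩
      intro c d hc hd hS hcd ⟨_, hvd⟩
      have hvc : var c = var a := (nx_iff.1 hcd).1.trans hvd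
      exact tog_nx hG hc hd (hR' d hd hvd).1 hcd (hS ⟨hc, hvc⟩)
    obtain ⟨P', hP', hT', h3⟩ := good hG (X := .B a) ha (hR' a ha rfl).2
    rcases hT'.fromB hG h3 with h4 | ⟨c, hc, hac, h4⟩
    · exact hna ⟨P', hP', h4, h3⟩
    · have h5 := hT'.ringB hG ha hac h4 h3
      rw [hs] at h2
      have := parts_eq hG hP hP' h2 h5
      subst this
      exact hT.no3' h1 h3 h4 rfl rfl rfl (by simp) (by simp) (by simp)

open Classical in
/-- the number of the clauses which are not satisfied is small -/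
theorem unsat_le (hG : IsG G lab var sg n) {K : ℕ} (hK : 0 < K) (hcnt : ∀ a < n, cnt var n a ≤ K)
    (π : Finpartition (Finset.univ : Finset (Fin N))) :
    ((Finset.range (n / 3)).filter fun j => ∀ a < n, a / 3 = j →
      asg lab π var n (var a) ≠ sg a).card ≤ (bad G lab π).card * K := by
  set g : Fin N → Finset ℕ := fun x => match lab x with
    | .Q j _ _ => {j}
    | .A a => ((Finset.range n).filter fun b => var b = var a).image fun b => b / 3
    | .B a => ((Finset.range n).filter fun b => var b = var a).image fun b => b / 3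
    | .T _ _ => ∅ with hg
  have hsub : ((Finset.range (n / 3)).filter fun j => ∀ a < n, a / 3 = j →
      asg lab π var n (var a) ≠ sg a) ⊆ (bad G lab π).biUnion g := by
    intro j hj
    rw [Finset.mem_filter, Finset.mem_range] at hj
    obtain ⟨hj1, hj2⟩ := hj
    by_contra hcon
    rw [Finset.mem_biUnion] at hcon
    push Not at hcon
    obtain ⟨a, ha, haj, has⟩ := clause_sat (π := π) hG (j := j) (by omega) (by
        rintro ⟨x, hx, hlx⟩
        apply hcon x hx
        simp [hg, hlx])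
      (by
        intro a ha haj b hb hba
        constructor
        · rintro ⟨x, hx, hlx⟩
          apply hcon x hx
          simp only [hg, hlx]
          exact Finset.mem_image.2 ⟨a, Finset.mem_filter.2 ⟨Finset.mem_range.2 ha, hba.symm⟩, haj⟩
        · rintro ⟨x, hx, hlx⟩
          apply hcon x hx
          simp only [hg, hlx]
          exact Finset.mem_image.2 ⟨a, Finset.mem_filter.2 ⟨Finset.mem_range.2 ha, hba.symm⟩, haj⟩)
    exact hj2 a ha haj has
  refine (Finset.card_le_card hsub).trans ?_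
  refine Finset.card_biUnion_le_card_mul _ _ _ ?_
  intro x _
  have hok := hG.ok x
  simp only [hg]
  cases hlx : lab x with
  | A a =>
    rw [hlx] at hok
    exact Finset.card_image_le.trans (hcnt a hok)
  | B a =>
    rw [hlx] at hok
    exact Finset.card_image_le.trans (hcnt a hok)
  | T s a => simp
  | Q j i u => simp; omega

end

end Pool.Agent.R550.DG
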