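import Pool.Agent.R550.DG.Gadget
import Pool.Agent.R550.DG.Defs

set_option autoImplicit false

/-!
# The value of a partition
-/

namespace Pool.Agent.R550.DG

open Classical in
theorem eo_eq {N : ℕ} (G : SimpleGraph (Fin N)) (P : Finset (Fin N)) :
    eo G P = 2 * edgesIn G P := by
  unfold eo edgesIn
  have h : ((P ×ˢ P).filter fun q => G.Adj q.1 q.2) =
      ((P ×ˢ P).filter fun q => q.1 < q.2 ∧ G.Adj q.1 q.2) ∪
        ((P ×ˢ P).filter fun q => q.1 < q.2 ∧ G.Adj q.1 q.2).image Prod.swap := by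
    ext ⟨x, y⟩
    simp only [Finset.mem_filter, Finset.mem_product, Finset.mem_union, Finset.mem_image,
      Prod.exists, Prod.swap_prod_mk, Prod.mk.injEq]
    constructor
    · rintro ⟨⟨hx, hy⟩, h⟩
      rcases lt_trichotomy x y with h1 | h1 | h1
      · exact Or.inl ⟨⟨hx, hy⟩, h1, h⟩
      · exact absurd h1 h.ne
      · exact Or.inr ⟨y, x, ⟨⟨hy, hx⟩, h1, h.symm⟩, rfl, rfl⟩
    · rintro (⟨h1, _, h2⟩ | ⟨a, b, ⟨⟨h1, h2⟩, _, h3⟩, rfl, rfl⟩)
      · exact ⟨h1, h2⟩
      · exact ⟨⟨h2, h1⟩, h3.symm⟩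
  rw [h, Finset.card_union_of_disjoint, Finset.card_image_of_injective _ Prod.swap_injective]
  · ring
  · rw [Finset.disjoint_left]
    rintro ⟨x, y⟩ h1 h2
    rw [Finset.mem_filter] at h1
    obtain ⟨⟨a, b⟩, h3, h4⟩ := Finset.mem_image.1 h2
    rw [Finset.mem_filter] at h3
    simp only [Prod.swap_prod_mk, Prod.mk.injEq] at h4
    obtain ⟨rfl, rfl⟩ := h4
    have e1 := h1.2.1
    have e2 := h3.2.1
    simp only at e1 e2
    exact lt_asymm e1 e2

section

variable {N : ℕ} {G : SimpleGraph (Fin N)} {lab : Fin N → W} {var : ℕ → ℕ} {sg : ℕ → Bool} {n : ℕ}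

open Classical in
/-- the vertices in parts which are not triangles -/
noncomputable def bad (G : SimpleGraph (Fin N)) (lab : Fin N → W)
    (π : Finpartition (Finset.univ : Finset (Fin N))) : Finset (Fin N) :=
  Finset.univ.filter fun x => ¬ Tri G lab (π.part x)

open Classical in
theorem part_le (hG : IsG G lab var sg n) {P : Finset (Fin N)} (hne : P.Nonempty) :
    (edgesIn G P : ℝ) / P.card ≤
      (32 * (P.card : ℝ) - (if Tri G lab P then 0 else (P.card : ℝ))) / 96 := by
  have hpos : (0 : ℝ) < P.card := by exact_mod_cast Finset.card_pos.2 hne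
  rw [div_le_div_iff₀ hpos (by norm_num)]
  have h1 := card_co_ti lab P
  have h2 := eo_eq G P
  split_ifs with h
  · obtain ⟨a1, a2, a3⟩ := h
    have e1 : P.card = 3 := by omega
    have e2 : edgesIn G P = 3 := by omega
    rw [e1, e2]
    norm_num
  · obtain ⟨s, b1, b2, b3⟩ := eo_le hG P
    have h3 := arith (co lab P).card (ti lab P).card s (eo G P) b1 b2 b3 h (by omega)
    rw [h1, h2] at h3
    have h4 : (48 * (2 * (edgesIn G P : ℝ))) ≤ 31 * (P.card : ℝ) ^ 2 := by exact_mod_cast h3
    nlinarith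

open Classical in
theorem card_bad (π : Finpartition (Finset.univ : Finset (Fin N))) :
    ((bad G lab π).card : ℝ) = ∑ P ∈ π.parts, (if Tri G lab P then 0 else (P.card : ℝ)) := by
  have h : bad G lab π = (π.parts.filter fun P => ¬ Tri G lab P).biUnion id := by
    ext x
    unfold bad
    simp only [Finset.mem_filter, Finset.mem_univ, true_and, Finset.mem_biUnion, id]
    constructor
    · intro h
      exact ⟨π.part x, ⟨π.part_mem.2 (Finset.mem_univ x), h⟩, π.mem_part (Finset.mem_univ x)⟩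
    · rintro ⟨P, ⟨h1, h2⟩, h3⟩
      rwa [π.part_eq_of_mem h1 h3]
  rw [h, Finset.card_biUnion, Nat.cast_sum, Finset.sum_filter]
  · refine Finset.sum_congr rfl fun P _ => ?_
    by_cases h : Tri G lab P <;> simp [h]
  · intro P hP Q hQ hPQ
    exact π.disjoint (Finset.mem_filter.1 hP).1 (Finset.mem_filter.1 hQ).1 hPQ

theorem density_le (hG : IsG G lab var sg n)
    (π : Finpartition (Finset.univ : Finset (Fin N))) :
    density G π ≤ (32 * (N : ℝ) - (bad G lab π).card) / 96 := by
  classical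
  have h1 : (N : ℝ) = ∑ P ∈ π.parts, (P.card : ℝ) := by
    rw [← Nat.cast_sum, π.sum_card_parts, Finset.card_univ, Fintype.card_fin]
  rw [card_bad, h1, Finset.mul_sum, ← Finset.sum_sub_distrib, Finset.sum_div]
  unfold density
  refine Finset.sum_le_sum fun P hP => part_le hG (π.nonempty_of_mem_parts hP)

end

end Pool.Agent.R550.DG
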